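import Pool.Agent.W5h47.JE.Defs

/-! (ME) the mean ergodic theorem (MP_ce5406_an). -/

open MeasureTheory Filter Topology

namespace Pool.Agent.W5h47.JE

theorem me : S_ME := by
  intro X _ μ _ S hS g hg hK h0
  obtain ⟨K, hK⟩ := hK
  have hmp : MeasurePreserving S μ μ := hS.toMeasurePreserving
  have hgL : MemLp g 2 μ := MemLp.of_bound hg.aestronglyMeasurable K
    (ae_of_all _ fun x => by simpa [Real.norm_eq_abs] using hK x)
  obtain ⟨v, hv⟩ : ∃ v : Lp ℝ 2 μ, v = hgL.toLp g := ⟨_, rfl⟩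
  have hvg : (v : X → ℝ) =ᵐ[μ] g := by rw [hv]; exact hgL.coeFn_toLp
  obtain ⟨U, hUdef⟩ : ∃ U : Lp ℝ 2 μ →L[ℝ] Lp ℝ 2 μ,
      U = (Lp.compMeasurePreservingₗᵢ ℝ S hmp).toContinuousLinearMap := ⟨_, rfl⟩
  have hU : ‖U‖ ≤ 1 := by rw [hUdef]; exact LinearIsometry.norm_toContinuousLinearMap_le _
  have hUc : ∀ f : Lp ℝ 2 μ, ((U f : Lp ℝ 2 μ) : X → ℝ) =ᵐ[μ] (f : X → ℝ) ∘ S := by
    intro f; rw [hUdef]; exact Lp.coeFn_compMeasurePreserving f hmp
  have hlim := ContinuousLinearMap.tendsto_birkhoffAverage_orthogonalProjection U hU v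
  have hiter : ∀ n : ℕ, ((U^[n] v : Lp ℝ 2 μ) : X → ℝ) =ᵐ[μ] fun x => g (S^[n] x) := by
    intro n
    induction n with
    | zero => simpa using hvg
    | succ n ih =>
      rw [Function.iterate_succ_apply']
      have h2 : ((U^[n] v : Lp ℝ 2 μ) : X → ℝ) ∘ S =ᵐ[μ] (fun x => g (S^[n] x)) ∘ S :=
        hmp.quasiMeasurePreserving.ae_eq_comp ih
      refine (hUc _).trans (h2.trans ?_)
      exact ae_of_all _ fun x => by simp [Function.iterate_succ_apply]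
  have hw0 : (((U.eqLocus (1 : Lp ℝ 2 μ →L[ℝ] Lp ℝ 2 μ)).orthogonalProjectionOnto v :
      U.eqLocus (1 : Lp ℝ 2 μ →L[ℝ] Lp ℝ 2 μ)) : Lp ℝ 2 μ) = 0 := by
    obtain ⟨w, hw⟩ : ∃ w : Lp ℝ 2 μ,
      w = ((U.eqLocus (1 : Lp ℝ 2 μ →L[ℝ] Lp ℝ 2 μ)).orthogonalProjectionOnto v :
      U.eqLocus (1 : Lp ℝ 2 μ →L[ℝ] Lp ℝ 2 μ)) := ⟨_, rfl⟩
    have hUw : U w = w := by
      rw [hw]
      exact ((U.eqLocus (1 : Lp ℝ 2 μ →L[ℝ] Lp ℝ 2 μ)).orthogonalProjectionOnto v).2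
    have hS2 : (w : X → ℝ) ∘ S =ᵐ[μ] (w : X → ℝ) := by
      have h1 := (hUc w).symm
      rwa [hUw] at h1
    obtain ⟨c, hc⟩ := hS.ae_eq_const_of_ae_eq_comp_ae (Lp.aestronglyMeasurable w) hS2
    have hvw : inner ℝ v w = 0 := by
      rw [L2.inner_def]
      have h1 : ∫ x, inner ℝ ((v : X → ℝ) x) ((w : X → ℝ) x) ∂μ = ∫ x, c * g x ∂μ := by
        refine integral_congr_ae ?_
        filter_upwards [hvg, hc] with x hx1 hx2
        rw [hx1, hx2]
        simp [Function.const]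
      rw [h1, integral_const_mul, h0, mul_zero]
    have horth : inner ℝ (v - w) w = 0 := by
      have := Submodule.starProjection_inner_eq_zero
        (K := U.eqLocus (1 : Lp ℝ 2 μ →L[ℝ] Lp ℝ 2 μ)) v w
        (by rw [hw]; exact ((U.eqLocus (1 : Lp ℝ 2 μ →L[ℝ] Lp ℝ 2 μ)).orthogonalProjectionOnto v).2)
      have h3 : (U.eqLocus (1 : Lp ℝ 2 μ →L[ℝ] Lp ℝ 2 μ)).starProjection v = w := by
        rw [hw]; rfl
      rw [h3] at this
      exact this
    rw [inner_sub_left, hvw, zero_sub, neg_eq_zero, inner_self_eq_zero] at horth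
    rw [← hw]; exact horth
  rw [hw0] at hlim
  have hn := (hlim.norm).pow 2
  rw [norm_zero, zero_pow (two_ne_zero)] at hn
  refine hn.congr fun H => ?_
  rw [← real_inner_self_eq_norm_sq, L2.inner_def]
  refine integral_congr_ae ?_
  have hall : ∀ᵐ x ∂μ, ∀ n : ℕ, ((U^[n] v : Lp ℝ 2 μ) : X → ℝ) x = g (S^[n] x) :=
    ae_all_iff.2 hiter
  have hav : ((birkhoffAverage ℝ U _root_.id H v : Lp ℝ 2 μ) : X → ℝ) =ᵐ[μ]
      fun x => (1 / (H : ℝ)) * ∑ j ∈ Finset.range H, ((U^[j] v : Lp ℝ 2 μ) : X → ℝ) x := by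
    rw [birkhoffAverage, birkhoffSum]
    simp only [id_eq]
    refine (Lp.coeFn_smul _ _).trans ?_
    have h1 : ((∑ j ∈ Finset.range H, U^[j] v : Lp ℝ 2 μ) : X → ℝ) =ᵐ[μ]
        fun x => ∑ j ∈ Finset.range H, ((U^[j] v : Lp ℝ 2 μ) : X → ℝ) x := by
      generalize Finset.range H = s
      induction s using Finset.induction_on with
      | empty =>
        simp only [Finset.sum_empty]
        exact Lp.coeFn_zero ℝ 2 μ
      | insert a s ha ih =>
        rw [Finset.sum_insert ha]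
        filter_upwards [Lp.coeFn_add (U^[a] v) (∑ j ∈ s, U^[j] v), ih] with x hx1 hx2
        rw [hx1, Pi.add_apply, hx2, Finset.sum_insert ha]
    filter_upwards [h1] with x hx
    simp only [Pi.smul_apply, smul_eq_mul, hx, one_div]
  filter_upwards [hall, hav] with x hx1 hx2
  rw [hx2]
  simp only [hx1, real_inner_self_eq_norm_sq, Real.norm_eq_abs, sq_abs]

end Pool.Agent.W5h47.JE
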