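import Pool.Agent.W5h47.JE.Defs

/-! (SH): the fastest sequence may be shifted by one (MP_ce5406_an). -/

open MeasureTheory Filter Topology Finset

namespace Pool.Agent.W5h47.JE

namespace Shl

variable {E : Type} [NormedAddCommGroup E] [NormedSpace ℝ E]

theorem norm_sum_Ico {f : ℕ → E} {K : ℝ} (hf : ∀ n, ‖f n‖ ≤ K) {a b : ℕ} (hab : a ≤ b) :
    ‖∑ n ∈ Ico a b, f n‖ ≤ K * ((b : ℝ) - a) := by
  refine (norm_sum_le_of_le _ fun n _ => hf n).trans ?_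
  rw [Finset.sum_const, Nat.card_Ico, nsmul_eq_mul, Nat.cast_sub hab, mul_comm]

theorem step_change {f : ℕ → E} {K : ℝ} (hf : ∀ n, ‖f n‖ ≤ K) {a b d : ℕ} (hab : a ≤ b)
    (hbd : b ≤ d) : ‖∑ n ∈ Ico b d, f n - ∑ n ∈ Ico a b, f n‖ ≤ K * ((d : ℝ) - a) := by
  refine (norm_sub_le _ _).trans ?_
  have h1 := norm_sum_Ico hf hbd
  have h2 := norm_sum_Ico hf hab
  linarith

theorem step_const {f : ℕ → E} {K : ℝ} (hf : ∀ n, ‖f n‖ ≤ K) {a b d : ℕ} (hab : a ≤ b)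
    (hbd : b ≤ d) (h : ∀ n, a ≤ n → n < d → f n = f a) :
    ‖∑ n ∈ Ico b d, f n - ∑ n ∈ Ico a b, f n‖ ≤ K * |(d : ℝ) - 2 * b + a| := by
  have h1 : ∑ n ∈ Ico b d, f n = ((d : ℝ) - b) • f a := by
    rw [Finset.sum_congr rfl fun n hn => h n (hab.trans (Finset.mem_Ico.1 hn).1)
      (Finset.mem_Ico.1 hn).2, Finset.sum_const, Nat.card_Ico, ← Nat.cast_smul_eq_nsmul ℝ,
      Nat.cast_sub hbd]
  have h2 : ∑ n ∈ Ico a b, f n = ((b : ℝ) - a) • f a := by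
    rw [Finset.sum_congr rfl fun n hn => h n (Finset.mem_Ico.1 hn).1
      ((Finset.mem_Ico.1 hn).2.trans_le hbd), Finset.sum_const, Nat.card_Ico,
      ← Nat.cast_smul_eq_nsmul ℝ, Nat.cast_sub hab]
  rw [h1, h2, ← sub_smul, norm_smul, Real.norm_eq_abs, mul_comm]
  have e : (d : ℝ) - b - (b - a) = d - 2 * b + a := by ring
  rw [e]
  exact mul_le_mul_of_nonneg_right (hf a) (abs_nonneg _)

/-- summation by blocks -/
theorem sum_blocks (F : ℕ → E) (W : ℕ → ℕ) (h0 : W 0 = 0) (hW : Monotone W) (M : ℕ) :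
    ∑ n ∈ range (W M), F n = ∑ m ∈ range M, ∑ n ∈ Ico (W m) (W (m + 1)), F n := by
  induction M with
  | zero => simp [h0]
  | succ M ih =>
    rw [Finset.sum_range_succ, ← ih, Finset.range_eq_Ico, Finset.range_eq_Ico]
    exact (Finset.sum_Ico_consecutive F (Nat.zero_le _) (hW (Nat.le_succ M))).symm

/-- the telescoping identity -/
theorem telescope (A B : ℕ → E) (M : ℕ) :
    ∑ m ∈ range M, (A m - B m) = A 0 - A M + ∑ m ∈ range M, (A (m + 1) - B m) := by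
  induction M with
  | zero => simp
  | succ M ih =>
    rw [Finset.sum_range_succ, Finset.sum_range_succ, ih]
    abel

/-- the main estimate, for an abstract sequence of block ends -/
theorem main_bound (Y : ℕ → ℕ → E) (K : ℝ) (hY : ∀ n m, ‖Y n m‖ ≤ K) (W fl : ℕ → ℕ)
    (h0 : W 0 = 0) (hW : Monotone W) (hfl : ∀ m n, W m ≤ n → n < W (m + 1) → fl n = m)
    (ch : ℕ → Prop)
    (hch : ∀ m, ¬ ch m → ∀ n, W m ≤ n → n < W (m + 2) → ∀ k, Y n k = Y (W m) k)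
    (N M : ℕ) (hM1 : W M ≤ N) (hM2 : N < W (M + 1)) (ε : ℝ)
    (e1 : ∀ m ≤ M, (W (m + 2) : ℝ) - W m ≤ ε * N) (hW2 : 1 ≤ W 2)
    (e2 : ∑ m ∈ range M, |(W (m + 2) : ℝ) - 2 * W (m + 1) + W m| ≤ ε * N)
    (G : ℕ → ℝ) (hG : ∀ m, ch m → (W (m + 2) : ℝ) - W m ≤ G m) (hG0 : ∀ m, 0 ≤ G m)
    (e3 : ∑ m ∈ range M, G m ≤ ε * N) :
    ‖∑ n ∈ Icc 1 N, (Y n (fl n) - Y n (fl n + 1))‖ ≤ 8 * K * (ε * N) := by
  have hK : 0 ≤ K := (norm_nonneg _).trans (hY 0 0)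
  set F : ℕ → E := fun n => Y n (fl n) - Y n (fl n + 1) with hF
  have hFK : ∀ n, ‖F n‖ ≤ 2 * K := fun n => by
    refine (norm_sub_le _ _).trans ?_
    have := hY n (fl n)
    have := hY n (fl n + 1)
    linarith
  have hs1 : ∑ n ∈ range (N + 1), F n = F 0 + ∑ n ∈ Icc 1 N, F n := by
    have : Icc 1 N = Ico 1 (N + 1) := by
      ext n
      simp only [Finset.mem_Icc, Finset.mem_Ico]
      omega
    rw [this, Finset.range_eq_Ico, Finset.sum_eq_sum_Ico_succ_bot (Nat.succ_pos N)]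
  have hs2 : ∑ n ∈ range (N + 1), F n = ∑ n ∈ range (W M), F n + ∑ n ∈ Ico (W M) (N + 1), F n := by
    rw [Finset.range_eq_Ico, Finset.range_eq_Ico]
    exact (Finset.sum_Ico_consecutive F (Nat.zero_le _) (by omega)).symm
  have hs3 : ∑ n ∈ range (W M), F n = ∑ m ∈ range M,
      (∑ n ∈ Ico (W m) (W (m + 1)), Y n m - ∑ n ∈ Ico (W m) (W (m + 1)), Y n (m + 1)) := by
    rw [sum_blocks F W h0 hW M]
    refine Finset.sum_congr rfl fun m _ => ?_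
    rw [← Finset.sum_sub_distrib]
    refine Finset.sum_congr rfl fun n hn => ?_
    rw [hF]
    simp only
    rw [hfl m n (Finset.mem_Ico.1 hn).1 (Finset.mem_Ico.1 hn).2]
  rw [telescope (fun m => ∑ n ∈ Ico (W m) (W (m + 1)), Y n m)
    (fun m => ∑ n ∈ Ico (W m) (W (m + 1)), Y n (m + 1))] at hs3
  have hA : ∀ m ≤ M, ‖∑ n ∈ Ico (W m) (W (m + 1)), Y n m‖ ≤ K * (ε * N) := by
    intro m hm
    refine (norm_sum_Ico (fun n => hY n m) (hW (Nat.le_succ m))).trans ?_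
    refine mul_le_mul_of_nonneg_left ?_ hK
    have h1 : (W (m + 1) : ℝ) ≤ W (m + 2) := by exact_mod_cast hW (Nat.le_succ (m + 1))
    have := e1 m hm
    linarith
  have hD : ‖∑ m ∈ range M, (∑ n ∈ Ico (W (m + 1)) (W (m + 1 + 1)), Y n (m + 1) -
      ∑ n ∈ Ico (W m) (W (m + 1)), Y n (m + 1))‖ ≤ K * (ε * N) + K * (ε * N) := by
    have h1 : ∀ m ∈ range M, ‖∑ n ∈ Ico (W (m + 1)) (W (m + 1 + 1)), Y n (m + 1) -
        ∑ n ∈ Ico (W m) (W (m + 1)), Y n (m + 1)‖ ≤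
        K * |(W (m + 2) : ℝ) - 2 * W (m + 1) + W m| + K * G m := by
      intro m _
      by_cases hc : ch m
      · refine (step_change (fun n => hY n (m + 1)) (hW (Nat.le_succ m))
          (hW (Nat.le_succ (m + 1)))).trans ?_
        have h2 := mul_le_mul_of_nonneg_left (hG m hc) hK
        have h3 := mul_nonneg hK (abs_nonneg ((W (m + 2) : ℝ) - 2 * W (m + 1) + W m))
        have e : (W (m + 1 + 1) : ℝ) = W (m + 2) := rfl
        rw [e]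
        linarith
      · refine (step_const (fun n => hY n (m + 1)) (hW (Nat.le_succ m))
          (hW (Nat.le_succ (m + 1))) fun n h2 h3 => hch m hc n h2 h3 (m + 1)).trans ?_
        have h2 := mul_nonneg hK (hG0 m)
        have e : (W (m + 1 + 1) : ℝ) = W (m + 2) := rfl
        rw [e]
        linarith
    refine (norm_sum_le_of_le _ h1).trans ?_
    rw [Finset.sum_add_distrib, ← Finset.mul_sum, ← Finset.mul_sum]
    exact add_le_add (mul_le_mul_of_nonneg_left e2 hK) (mul_le_mul_of_nonneg_left e3 hK)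
  have hL : ‖∑ n ∈ Ico (W M) (N + 1), F n‖ ≤ 2 * K * (ε * N) := by
    refine (norm_sum_Ico hFK (by omega)).trans ?_
    refine mul_le_mul_of_nonneg_left ?_ (by linarith)
    have h1 : ((N + 1 : ℕ) : ℝ) ≤ W (M + 2) := by
      have : N + 1 ≤ W (M + 2) := (Nat.succ_le_of_lt hM2).trans (hW (Nat.le_succ (M + 1)))
      exact_mod_cast this
    have := e1 M le_rfl
    linarith
  have h1N : 1 ≤ ε * N := by
    have h2 := e1 0 (Nat.zero_le M)
    rw [h0] at h2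
    have h3 : (1 : ℝ) ≤ W 2 := by exact_mod_cast hW2
    simp only [zero_add, Nat.cast_zero, sub_zero] at h2
    linarith
  have h0F : ‖F 0‖ ≤ 2 * K * (ε * N) := by
    refine (hFK 0).trans ?_
    have := mul_le_mul_of_nonneg_left h1N (show 0 ≤ 2 * K by linarith)
    linarith
  have hfin : ∑ n ∈ Icc 1 N, F n = (∑ n ∈ Ico (W 0) (W (0 + 1)), Y n 0 -
      ∑ n ∈ Ico (W M) (W (M + 1)), Y n M + ∑ m ∈ range M,
        (∑ n ∈ Ico (W (m + 1)) (W (m + 1 + 1)), Y n (m + 1) -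
          ∑ n ∈ Ico (W m) (W (m + 1)), Y n (m + 1))) + ∑ n ∈ Ico (W M) (N + 1), F n - F 0 := by
    rw [eq_sub_iff_add_eq, add_comm, ← hs1, hs2, hs3]
  rw [hfin]
  refine (norm_sub_le _ _).trans ?_
  have n1 := norm_add_le (∑ n ∈ Ico (W 0) (W (0 + 1)), Y n 0 -
      ∑ n ∈ Ico (W M) (W (M + 1)), Y n M + ∑ m ∈ range M,
        (∑ n ∈ Ico (W (m + 1)) (W (m + 1 + 1)), Y n (m + 1) -
          ∑ n ∈ Ico (W m) (W (m + 1)), Y n (m + 1))) (∑ n ∈ Ico (W M) (N + 1), F n)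
  have n2 := norm_add_le (∑ n ∈ Ico (W 0) (W (0 + 1)), Y n 0 -
      ∑ n ∈ Ico (W M) (W (M + 1)), Y n M) (∑ m ∈ range M,
        (∑ n ∈ Ico (W (m + 1)) (W (m + 1 + 1)), Y n (m + 1) -
          ∑ n ∈ Ico (W m) (W (m + 1)), Y n (m + 1)))
  have n3 := norm_sub_le (∑ n ∈ Ico (W 0) (W (0 + 1)), Y n 0)
    (∑ n ∈ Ico (W M) (W (M + 1)), Y n M)
  have a0 := hA 0 (Nat.zero_le M)
  have a1 := hA M le_rfl
  linarith

end Shl

open Shl in
/-- (SH) -/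
theorem sh (h : S_SH1) : S_SH := by
  intro E _ _ ι _ c c' hc1 hc0 hc'0 hc'c y K hy
  obtain ⟨hfl, hest⟩ := h ι c c' hc1 hc0 hc'0 hc'c
  have hK : 0 ≤ K := (norm_nonneg _).trans (hy (fun _ => 0) 0)
  set W : ℕ → ℕ := fun m => ⌈(m : ℝ) ^ (1 / c)⌉₊ with hWdef
  have hc : (0 : ℝ) < 1 / c := by positivity
  have hW0 : W 0 = 0 := by
    rw [hWdef]
    simp only [Nat.cast_zero]
    rw [Real.zero_rpow hc.ne', Nat.ceil_zero]
  have hW1 : W 1 = 1 := by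
    rw [hWdef]
    simp
  have hWm : Monotone W := by
    intro a b hab
    exact Nat.ceil_mono (Real.rpow_le_rpow (Nat.cast_nonneg a) (Nat.cast_le.2 hab) hc.le)
  have hfl' : ∀ m n, W m ≤ n → n < W (m + 1) → ⌊(n : ℝ) ^ c⌋₊ = m := by
    intro m n h1 h2
    rcases Nat.eq_zero_or_pos m with rfl | hm
    · rw [zero_add, hW1] at h2
      have : n = 0 := by omega
      subst this
      simp [Real.zero_rpow hc0.ne']
    · exact (hfl m n hm).2 ⟨h1, h2⟩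
  rw [Metric.tendsto_atTop]
  intro δ hδ
  obtain ⟨N₀, hN₀⟩ := hest (δ / (8 * (K + 1))) (by positivity)
  refine ⟨max N₀ 1, fun N hN => ?_⟩
  have hN0 : N₀ ≤ N := (le_max_left _ _).trans hN
  have hN1 : 1 ≤ N := (le_max_right _ _).trans hN
  set ε : ℝ := δ / (8 * (K + 1)) with hε
  set M : ℕ := ⌊(N : ℝ) ^ c⌋₊ with hM
  have hM1 : 1 ≤ M := by
    rw [hM]
    apply Nat.le_floor
    rw [Nat.cast_one]
    exact Real.one_le_rpow (by exact_mod_cast hN1) hc0.le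
  have hMN := (hfl M N hM1).1 hM.symm
  have hb := main_bound (fun n m => y (fun i => ⌊(n : ℝ) ^ (c' i)⌋₊) m) K (fun n m => hy _ _) W
    (fun n => ⌊(n : ℝ) ^ c⌋₊) hW0 hWm hfl'
    (fun m => ∃ n n' : ℕ, W m ≤ n ∧ n ≤ n' ∧ n' < W (m + 2) ∧
      ∃ i, ⌊(n : ℝ) ^ (c' i)⌋₊ ≠ ⌊(n' : ℝ) ^ (c' i)⌋₊)
    (fun m hm n h1 h2 k => by
      push Not at hm
      have : (fun i => ⌊((W m : ℕ) : ℝ) ^ (c' i)⌋₊) = fun i => ⌊(n : ℝ) ^ (c' i)⌋₊ := by
        funext i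
        exact hm (W m) n le_rfl h1 h2 i
      exact congrArg (fun a => y a k) this.symm)
    N M hMN.1 hMN.2 ε (fun m hm => (hN₀ N hN0 m hm).1)
    (hW1 ▸ hWm (by norm_num : 1 ≤ 2)) (hN₀ N hN0 M le_rfl).2.1
    (fun m => open Classical in
      if ∃ n n' : ℕ, ⌈(m : ℝ) ^ (1 / c)⌉₊ ≤ n ∧ n ≤ n' ∧ n' < ⌈((m + 2 : ℕ) : ℝ) ^ (1 / c)⌉₊ ∧
          ∃ i, ⌊(n : ℝ) ^ (c' i)⌋₊ ≠ ⌊(n' : ℝ) ^ (c' i)⌋₊
      then ((⌈((m + 2 : ℕ) : ℝ) ^ (1 / c)⌉₊ : ℝ) - ⌈(m : ℝ) ^ (1 / c)⌉₊) else 0)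
    (fun m hm => by
      rw [if_pos hm])
    (fun m => by
      split_ifs with h1
      · have : (W m : ℝ) ≤ W (m + 2) := by exact_mod_cast hWm (by omega : m ≤ m + 2)
        exact sub_nonneg.2 this
      · exact le_rfl)
    (hN₀ N hN0 M le_rfl).2.2
  rw [dist_zero_right, norm_smul, Real.norm_eq_abs, abs_of_nonneg (by positivity)]
  have hNpos : (0 : ℝ) < N := by exact_mod_cast hN1
  have h2 : 1 / (N : ℝ) * ‖∑ n ∈ Icc 1 N, (y (fun i => ⌊(n : ℝ) ^ (c' i)⌋₊) ⌊(n : ℝ) ^ c⌋₊ -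
      y (fun i => ⌊(n : ℝ) ^ (c' i)⌋₊) (⌊(n : ℝ) ^ c⌋₊ + 1))‖ ≤ 1 / (N : ℝ) * (8 * K * (ε * N)) :=
    mul_le_mul_of_nonneg_left hb (by positivity)
  refine h2.trans_lt ?_
  have h3 : 1 / (N : ℝ) * (8 * K * (ε * N)) = 8 * K * ε := by
    field_simp
  rw [h3, hε]
  have h4 : 8 * K * (δ / (8 * (K + 1))) = δ * (K / (K + 1)) := by
    field_simp
  rw [h4]
  have h5 : K / (K + 1) < 1 := by
    rw [div_lt_one (by linarith)]
    linarith
  calc δ * (K / (K + 1)) < δ * 1 := mul_lt_mul_of_pos_left h5 hδ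
    _ = δ := mul_one δ

end Pool.Agent.W5h47.JE
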