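import Pool.Agent.W5h47.JE.Defs

/-! Counting estimates behind the shift of the fastest sequence. -/

open MeasureTheory Filter Topology

namespace Pool.Agent.W5h47.JE

namespace SH1

/-- `⌈m^p⌉` -/
noncomputable def W (p : ℝ) (m : ℕ) : ℕ := ⌈(m : ℝ) ^ p⌉₊

/-- `(m+1)^p - m^p` -/
noncomputable def D (p : ℝ) (m : ℕ) : ℝ := ((m + 1 : ℕ) : ℝ) ^ p - (m : ℝ) ^ p

theorem W_lo (p : ℝ) (m : ℕ) : (m : ℝ) ^ p ≤ W p m := Nat.le_ceil _

theorem W_hi (p : ℝ) (m : ℕ) : (W p m : ℝ) ≤ (m : ℝ) ^ p + 1 :=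
  (Nat.ceil_lt_add_one (Real.rpow_nonneg (Nat.cast_nonneg m) p)).le

theorem W_mono {p : ℝ} (hp : 1 ≤ p) {m m' : ℕ} (h : m ≤ m') : W p m ≤ W p m' :=
  Nat.ceil_mono (Real.rpow_le_rpow (Nat.cast_nonneg m) (by exact_mod_cast h) (by linarith))

theorem D_succ {p : ℝ} (hp : 1 ≤ p) (m : ℕ) : D p m ≤ D p (m + 1) := by
  have h := (convexOn_rpow hp).2 (Set.mem_Ici.2 (Nat.cast_nonneg m))
    (Set.mem_Ici.2 (Nat.cast_nonneg (m + 2))) (by norm_num : (0 : ℝ) ≤ 1 / 2)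
    (by norm_num : (0 : ℝ) ≤ 1 / 2) (by norm_num : (1 / 2 : ℝ) + 1 / 2 = 1)
  simp only [smul_eq_mul] at h
  have e : (1 / 2 : ℝ) * (m : ℝ) + 1 / 2 * ((m + 2 : ℕ) : ℝ) = ((m + 1 : ℕ) : ℝ) := by
    push_cast
    ring
  rw [e] at h
  unfold D
  have e2 : m + 1 + 1 = m + 2 := rfl
  rw [e2]
  linarith

theorem D_le {p : ℝ} (hp : 1 ≤ p) (m : ℕ) : D p m ≤ p * ((m + 1 : ℕ) : ℝ) ^ (p - 1) := by
  have hx : (0 : ℝ) < ((m + 1 : ℕ) : ℝ) := by positivity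
  have h := one_add_mul_self_le_rpow_one_add (s := -1 / ((m + 1 : ℕ) : ℝ))
    (by
      rw [le_div_iff₀ hx]
      push_cast
      linarith [(Nat.cast_nonneg m : (0 : ℝ) ≤ m)]) hp
  have e : 1 + -1 / ((m + 1 : ℕ) : ℝ) = (m : ℝ) / ((m + 1 : ℕ) : ℝ) := by
    field_simp
    push_cast
    ring
  rw [e, Real.div_rpow (Nat.cast_nonneg m) hx.le] at h
  have hxp : 0 < ((m + 1 : ℕ) : ℝ) ^ p := Real.rpow_pos_of_pos hx p
  rw [le_div_iff₀ hxp] at h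
  rw [Real.rpow_sub_one hx.ne']
  unfold D
  have e3 : (1 + p * (-1 / ((m + 1 : ℕ) : ℝ))) * ((m + 1 : ℕ) : ℝ) ^ p =
      ((m + 1 : ℕ) : ℝ) ^ p - p * (((m + 1 : ℕ) : ℝ) ^ p / ((m + 1 : ℕ) : ℝ)) := by
    field_simp
    ring
  linarith

theorem D_nonneg {p : ℝ} (hp : 1 ≤ p) (m : ℕ) : 0 ≤ D p m := by
  unfold D
  have : (m : ℝ) ^ p ≤ ((m + 1 : ℕ) : ℝ) ^ p :=
    Real.rpow_le_rpow (Nat.cast_nonneg m) (by push_cast; linarith) (by linarith)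
  linarith

/-- window length -/
theorem win {p : ℝ} (hp : 1 ≤ p) (m : ℕ) :
    (W p (m + 2) : ℝ) - W p m ≤ 2 * p * ((m + 2 : ℕ) : ℝ) ^ (p - 1) + 1 := by
  have h1 := W_hi p (m + 2)
  have h2 := W_lo p m
  have h3 := D_succ hp m
  have h4 := D_le hp (m + 1)
  have h5 : D p m + D p (m + 1) = ((m + 2 : ℕ) : ℝ) ^ p - (m : ℝ) ^ p := by
    unfold D
    have e2 : m + 1 + 1 = m + 2 := rfl
    rw [e2]
    ring
  have e2 : m + 1 + 1 = m + 2 := rfl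
  rw [e2] at h4
  linarith

theorem second {p : ℝ} (hp : 1 ≤ p) (m : ℕ) :
    |(W p (m + 2) : ℝ) - 2 * W p (m + 1) + W p m| ≤ (D p (m + 1) - D p m) + 2 := by
  have a1 := W_hi p (m + 2)
  have a2 := W_lo p (m + 2)
  have b1 := W_hi p (m + 1)
  have b2 := W_lo p (m + 1)
  have c1 := W_hi p m
  have c2 := W_lo p m
  have h3 := D_succ hp m
  have h5 : D p (m + 1) - D p m =
      ((m + 2 : ℕ) : ℝ) ^ p - 2 * ((m + 1 : ℕ) : ℝ) ^ p + (m : ℝ) ^ p := by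
    unfold D
    have e2 : m + 1 + 1 = m + 2 := rfl
    rw [e2]
    ring
  rw [abs_le]
  constructor <;> linarith

theorem tele (f : ℕ → ℝ) (M : ℕ) : ∑ m ∈ Finset.range M, (f (m + 2) - f m) =
    (f (M + 1) - f 1) + (f M - f 0) := by
  have h1 := Finset.sum_range_sub (fun m => f (m + 1)) M
  have h2 := Finset.sum_range_sub f M
  rw [← h1, ← h2, ← Finset.sum_add_distrib]
  refine Finset.sum_congr rfl fun m _ => ?_
  ring

theorem level {c : ℝ} (hc : 0 < c) (m n : ℕ) (hm : 1 ≤ m) : (⌊(n : ℝ) ^ c⌋₊ = m ↔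
    ⌈(m : ℝ) ^ (1 / c)⌉₊ ≤ n ∧ n < ⌈((m + 1 : ℕ) : ℝ) ^ (1 / c)⌉₊) := by
  have hn : (0 : ℝ) ≤ n := Nat.cast_nonneg n
  rw [Nat.floor_eq_iff (Real.rpow_nonneg hn c), Nat.ceil_le, Nat.lt_ceil, one_div,
    Real.rpow_inv_le_iff_of_pos (Nat.cast_nonneg m) hn hc,
    Real.lt_rpow_inv_iff_of_pos hn (Nat.cast_nonneg (m + 1)) hc]
  push_cast
  rfl

end SH1

open SH1

theorem sh1 : S_SH1 := by
  intro ι _ c c' hc1 hc0 hc' hcc
  refine ⟨fun m n hm => level hc0 m n hm, ?_⟩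
  classical
  have := Fintype.ofFinite ι
  obtain ⟨b, hb0, hbc, hb⟩ : ∃ b : ℝ, 0 < b ∧ b < c ∧ ∀ i, c' i ≤ b := by
    rcases isEmpty_or_nonempty ι with hι | hι
    · exact ⟨c / 2, by linarith, by linarith, fun i => (hι.false i).elim⟩
    · obtain ⟨i0, hi0⟩ := Finite.exists_max c'
      exact ⟨c' i0, hc' i0, hcc i0, hi0⟩
  set p : ℝ := 1 / c with hp
  have hp1 : 1 ≤ p := by
    rw [hp, le_div_iff₀ hc0]
    linarith
  have hcp : c * p = 1 := by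
    rw [hp]
    field_simp
  set a : ℝ := max (1 - c + b) c with ha
  have ha1 : a < 1 := max_lt (by linarith) hc1
  have ha2 : 1 - c ≤ a := le_trans (by linarith) (le_max_left _ _)
  have ha3 : c ≤ a := le_max_right _ _
  have ha4 : b + (1 - c) ≤ a := le_trans (by linarith) (le_max_left _ _)
  set L1 : ℝ := 2 * p * 3 ^ (p - 1) + 1 with hL1
  have hL10 : 0 < L1 := by positivity
  set Q : ℝ := (2 ^ (p + 1)) ^ b with hQ
  have hQ0 : 0 < Q := by positivity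
  set C : ℝ := L1 + 2 + Fintype.card ι * (2 * Q * L1) with hC
  have hC0 : 0 < C := by positivity
  intro ε hε
  obtain ⟨N₀, hN₀⟩ : ∃ N₀ : ℕ, ∀ N : ℕ, N₀ ≤ N → 1 ≤ N ∧ C * (N : ℝ) ^ a ≤ ε * N := by
    have h1 : Tendsto (fun N : ℕ => (N : ℝ) ^ (1 - a)) atTop atTop :=
      (tendsto_rpow_atTop (by linarith)).comp tendsto_natCast_atTop_atTop
    obtain ⟨N₁, hN₁⟩ := eventually_atTop.1 (h1.eventually_ge_atTop (C / ε))
    refine ⟨max N₁ 1, fun N hN => ⟨(le_max_right _ _).trans hN, ?_⟩⟩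
    have h2 := hN₁ N ((le_max_left _ _).trans hN)
    have h3 : (1 : ℝ) ≤ N := by exact_mod_cast (le_max_right _ _).trans hN
    have h4 : (N : ℝ) ^ a * (N : ℝ) ^ (1 - a) = N := by
      rw [← Real.rpow_add (by linarith)]
      simp
    rw [div_le_iff₀ hε] at h2
    have h5 : 0 < (N : ℝ) ^ a := Real.rpow_pos_of_pos (by linarith) a
    nlinarith
  refine ⟨N₀, fun N hN M hM => ?_⟩
  obtain ⟨hN1, hfin⟩ := hN₀ N hN
  have hN1' : (1 : ℝ) ≤ N := by exact_mod_cast hN1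
  have hNp : (0 : ℝ) < N := by linarith
  have hM' : (M : ℝ) ≤ (N : ℝ) ^ c :=
    (Nat.cast_le.2 hM).trans (Nat.floor_le (Real.rpow_nonneg hNp.le c))
  have hNc1 : 1 ≤ (N : ℝ) ^ c := Real.one_le_rpow hN1' hc0.le
  have hNa1 : (N : ℝ) ^ (1 - c) ≤ (N : ℝ) ^ a := Real.rpow_le_rpow_of_exponent_le hN1' ha2
  have hNa2 : (N : ℝ) ^ c ≤ (N : ℝ) ^ a := Real.rpow_le_rpow_of_exponent_le hN1' ha3
  have hNc2 : 1 ≤ (N : ℝ) ^ (1 - c) := Real.one_le_rpow hN1' (by linarith)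
  have hcp1 : ((N : ℝ) ^ c) ^ (p - 1) = (N : ℝ) ^ (1 - c) := by
    rw [← Real.rpow_mul hNp.le]
    congr 1
    linarith
  -- the window length
  have hwin : ∀ m ≤ M, 2 * p * ((m + 2 : ℕ) : ℝ) ^ (p - 1) + 1 ≤ L1 * (N : ℝ) ^ (1 - c) := by
    intro m hm
    have h1 : ((m + 2 : ℕ) : ℝ) ≤ 3 * (N : ℝ) ^ c := by
      have : (m : ℝ) ≤ M := by exact_mod_cast hm
      push_cast
      linarith
    have h2 : ((m + 2 : ℕ) : ℝ) ^ (p - 1) ≤ 3 ^ (p - 1) * (N : ℝ) ^ (1 - c) := by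
      rw [← hcp1, ← Real.mul_rpow (by norm_num) (by positivity)]
      exact Real.rpow_le_rpow (by positivity) h1 (by linarith)
    have h3 : 0 < 2 * p := by linarith
    calc 2 * p * ((m + 2 : ℕ) : ℝ) ^ (p - 1) + 1
        ≤ 2 * p * (3 ^ (p - 1) * (N : ℝ) ^ (1 - c)) + (N : ℝ) ^ (1 - c) :=
          add_le_add (mul_le_mul_of_nonneg_left h2 h3.le) hNc2
      _ = _ := by rw [hL1]; ring
  have hCa : ∀ x : ℝ, x ≤ C * (N : ℝ) ^ a → x ≤ ε * N := fun x hx => hx.trans hfin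
  have hNa0 : 0 < (N : ℝ) ^ a := Real.rpow_pos_of_pos hNp a
  have hcard : (0 : ℝ) ≤ Fintype.card ι * (2 * Q * L1) := by positivity
  refine ⟨?_, ?_, ?_⟩
  · refine hCa _ ?_
    have h1 := win hp1 M
    have h2 := hwin M le_rfl
    have h3 : L1 * (N : ℝ) ^ (1 - c) ≤ C * (N : ℝ) ^ a := by
      have h4 : L1 * (N : ℝ) ^ (1 - c) ≤ L1 * (N : ℝ) ^ a :=
        mul_le_mul_of_nonneg_left hNa1 hL10.le
      have h5 : L1 * (N : ℝ) ^ a ≤ C * (N : ℝ) ^ a :=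
        mul_le_mul_of_nonneg_right (by rw [hC]; linarith) hNa0.le
      linarith
    exact h1.trans (h2.trans h3)
  · refine hCa _ ?_
    have h1 : ∑ m ∈ Finset.range M, |((W p (m + 2) : ℝ) - 2 * W p (m + 1) + W p m)| ≤
        ∑ m ∈ Finset.range M, ((D p (m + 1) - D p m) + 2) :=
      Finset.sum_le_sum fun m _ => second hp1 m
    rw [Finset.sum_add_distrib, Finset.sum_range_sub, Finset.sum_const, Finset.card_range,
      nsmul_eq_mul] at h1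
    have h2 := D_nonneg hp1 0
    have h3 : D p M ≤ L1 * (N : ℝ) ^ (1 - c) := by
      have h4 := D_succ hp1 M
      have h5 := D_le hp1 (M + 1)
      have h6 := hwin M le_rfl
      have e2 : M + 1 + 1 = M + 2 := rfl
      rw [e2] at h5
      have h7 : 0 ≤ p * ((M + 2 : ℕ) : ℝ) ^ (p - 1) := by positivity
      linarith
    have h4 : L1 * (N : ℝ) ^ (1 - c) ≤ L1 * (N : ℝ) ^ a :=
      mul_le_mul_of_nonneg_left hNa1 hL10.le
    have h5 : (M : ℝ) * 2 ≤ 2 * (N : ℝ) ^ a := by linarith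
    have h6 : (L1 + 2) * (N : ℝ) ^ a ≤ C * (N : ℝ) ^ a :=
      mul_le_mul_of_nonneg_right (by rw [hC]; linarith) hNa0.le
    refine h1.trans ?_
    linarith
  · refine hCa _ ?_
    set φ : ι → ℕ → ℝ := fun i m => (⌊((W p m : ℕ) : ℝ) ^ (c' i)⌋₊ : ℝ) with hφ
    have hφm : ∀ i {m m' : ℕ}, m ≤ m' → φ i m ≤ φ i m' := by
      intro i m m' h
      have h1 : ((W p m : ℕ) : ℝ) ≤ ((W p m' : ℕ) : ℝ) := by exact_mod_cast W_mono hp1 h
      simp only [hφ]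
      exact Nat.cast_le.2 (Nat.floor_mono (Real.rpow_le_rpow (Nat.cast_nonneg _) h1 (hc' i).le))
    have hterm : ∀ m ∈ Finset.range M, (if ∃ n n' : ℕ, ⌈(m : ℝ) ^ p⌉₊ ≤ n ∧ n ≤ n' ∧
          n' < ⌈((m + 2 : ℕ) : ℝ) ^ p⌉₊ ∧
          ∃ i, ⌊(n : ℝ) ^ (c' i)⌋₊ ≠ ⌊(n' : ℝ) ^ (c' i)⌋₊
      then ((⌈((m + 2 : ℕ) : ℝ) ^ p⌉₊ : ℝ) - ⌈(m : ℝ) ^ p⌉₊) else 0) ≤
        ∑ i, (φ i (m + 2) - φ i m) * (L1 * (N : ℝ) ^ (1 - c)) := by
      intro m hm
      have hmM : m ≤ M := (Finset.mem_range.1 hm).le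
      have hnn : ∀ i, 0 ≤ (φ i (m + 2) - φ i m) * (L1 * (N : ℝ) ^ (1 - c)) := fun i =>
        mul_nonneg (sub_nonneg.2 (hφm i (by omega))) (by positivity)
      split_ifs with h
      · obtain ⟨n, n', h1, h2, h3, i, hi⟩ := h
        have k1 : ⌊((W p m : ℕ) : ℝ) ^ (c' i)⌋₊ ≤ ⌊(n : ℝ) ^ (c' i)⌋₊ :=
          Nat.floor_mono (Real.rpow_le_rpow (Nat.cast_nonneg _) (by exact_mod_cast h1) (hc' i).le)
        have k2 : ⌊(n : ℝ) ^ (c' i)⌋₊ ≤ ⌊(n' : ℝ) ^ (c' i)⌋₊ :=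
          Nat.floor_mono (Real.rpow_le_rpow (Nat.cast_nonneg _) (by exact_mod_cast h2) (hc' i).le)
        have k3 : ⌊(n' : ℝ) ^ (c' i)⌋₊ ≤ ⌊((W p (m + 2) : ℕ) : ℝ) ^ (c' i)⌋₊ :=
          Nat.floor_mono (Real.rpow_le_rpow (Nat.cast_nonneg _) (by exact_mod_cast h3.le) (hc' i).le)
        have k4 : ⌊((W p m : ℕ) : ℝ) ^ (c' i)⌋₊ + 1 ≤ ⌊((W p (m + 2) : ℕ) : ℝ) ^ (c' i)⌋₊ := by
          omega
        have k5 : 1 ≤ φ i (m + 2) - φ i m := by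
          have : ((⌊((W p m : ℕ) : ℝ) ^ (c' i)⌋₊ + 1 : ℕ) : ℝ) ≤
            (⌊((W p (m + 2) : ℕ) : ℝ) ^ (c' i)⌋₊ : ℝ) := by exact_mod_cast k4
          push_cast at this
          simp only [hφ]
          linarith
        have k6 : (W p (m + 2) : ℝ) - W p m ≤ L1 * (N : ℝ) ^ (1 - c) :=
          (win hp1 m).trans (hwin m hmM)
        have k7 : L1 * (N : ℝ) ^ (1 - c) ≤ (φ i (m + 2) - φ i m) * (L1 * (N : ℝ) ^ (1 - c)) := by
          have : 0 < L1 * (N : ℝ) ^ (1 - c) := by positivity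
          nlinarith
        exact (k6.trans k7).trans (Finset.single_le_sum (f := fun i =>
          (φ i (m + 2) - φ i m) * (L1 * (N : ℝ) ^ (1 - c))) (fun i _ => hnn i) (Finset.mem_univ i))
      · exact Finset.sum_nonneg fun i _ => hnn i
    refine (Finset.sum_le_sum hterm).trans ?_
    rw [Finset.sum_comm]
    have hWM : (W p (M + 1) : ℝ) ≤ 2 ^ (p + 1) * N := by
      have h1 := W_hi p (M + 1)
      have h2 : ((M + 1 : ℕ) : ℝ) ≤ 2 * (N : ℝ) ^ c := by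
        push_cast
        linarith
      have h3 : ((M + 1 : ℕ) : ℝ) ^ p ≤ 2 ^ p * N := by
        calc ((M + 1 : ℕ) : ℝ) ^ p ≤ (2 * (N : ℝ) ^ c) ^ p :=
              Real.rpow_le_rpow (Nat.cast_nonneg _) h2 (by linarith)
          _ = 2 ^ p * N := by
              rw [Real.mul_rpow (by norm_num) (by positivity), ← Real.rpow_mul hNp.le, hcp,
                Real.rpow_one]
      have h4 : (1 : ℝ) ≤ 2 ^ p := Real.one_le_rpow (by norm_num) (by linarith)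
      have h5 : (2 : ℝ) ^ (p + 1) = 2 ^ p * 2 := by
        rw [Real.rpow_add (by norm_num), Real.rpow_one]
      rw [h5]
      nlinarith
    have hone : (1 : ℝ) ≤ 2 ^ (p + 1) * N := by
      have h4 : (1 : ℝ) ≤ 2 ^ (p + 1) := Real.one_le_rpow (by norm_num) (by linarith)
      nlinarith
    have hφM : ∀ i, φ i (M + 1) ≤ Q * (N : ℝ) ^ b := by
      intro i
      calc φ i (M + 1) ≤ ((W p (M + 1) : ℕ) : ℝ) ^ (c' i) :=
            Nat.floor_le (Real.rpow_nonneg (Nat.cast_nonneg _) _)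
        _ ≤ (2 ^ (p + 1) * N) ^ (c' i) := Real.rpow_le_rpow (Nat.cast_nonneg _) hWM (hc' i).le
        _ ≤ (2 ^ (p + 1) * N) ^ b := Real.rpow_le_rpow_of_exponent_le hone (hb i)
        _ = _ := by rw [hQ, Real.mul_rpow (by positivity) hNp.le]
    have hsum : ∀ i, ∑ m ∈ Finset.range M, (φ i (m + 2) - φ i m) * (L1 * (N : ℝ) ^ (1 - c)) ≤
        2 * Q * L1 * (N : ℝ) ^ a := by
      intro i
      rw [← Finset.sum_mul, tele]
      have h0 : 0 ≤ φ i 0 := by simp only [hφ]; positivity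
      have h1 : 0 ≤ φ i 1 := by simp only [hφ]; positivity
      have h2 := hφm i (Nat.le_succ M)
      have h3 := hφM i
      have h4 : (φ i (M + 1) - φ i 1) + (φ i M - φ i 0) ≤ 2 * (Q * (N : ℝ) ^ b) := by
        have h2' : φ i M ≤ φ i (M + 1) := h2
        linarith
      calc ((φ i (M + 1) - φ i 1) + (φ i M - φ i 0)) * (L1 * (N : ℝ) ^ (1 - c))
          ≤ 2 * (Q * (N : ℝ) ^ b) * (L1 * (N : ℝ) ^ (1 - c)) :=
            mul_le_mul_of_nonneg_right h4 (by positivity)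
        _ = 2 * Q * L1 * (N : ℝ) ^ (b + (1 - c)) := by
            rw [Real.rpow_add hNp]
            ring
        _ ≤ _ := mul_le_mul_of_nonneg_left (Real.rpow_le_rpow_of_exponent_le hN1' ha4)
            (by positivity)
    refine (Finset.sum_le_sum fun i _ => hsum i).trans ?_
    rw [Finset.sum_const, Finset.card_univ, nsmul_eq_mul, ← mul_assoc]
    exact mul_le_mul_of_nonneg_right (by rw [hC]; linarith) hNa0.le

end Pool.Agent.W5h47.JE
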