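import Pool.Agent.W5h47.JE.Defs

/-! (VC) short averages along squares for a totally ergodic map. -/

set_option autoImplicit false

open MeasureTheory Filter Topology

namespace Pool.Agent.W5h47.JE

namespace VCx

variable {X : Type} [MeasurableSpace X] {μ : Measure X} [IsProbabilityMeasure μ]

theorem int_bdd {f : X → ℝ} (hf : Measurable f) {K : ℝ} (hK : ∀ x, |f x| ≤ K) :
    Integrable f μ :=
  (integrable_const K).mono' hf.aestronglyMeasurable
    (ae_of_all _ fun x => by rw [Real.norm_eq_abs]; exact hK x)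

theorem mem_bdd {f : X → ℝ} (hf : Measurable f) {K : ℝ} (hK : ∀ x, |f x| ≤ K) :
    MemLp f 2 μ :=
  MemLp.of_bound hf.aestronglyMeasurable K
    (ae_of_all _ fun x => by rw [Real.norm_eq_abs]; exact hK x)

theorem inner_toLp {f g : X → ℝ} (hf : MemLp f 2 μ) (hg : MemLp g 2 μ) :
    inner ℝ (hf.toLp f) (hg.toLp g) = ∫ x, f x * g x ∂μ := by
  rw [L2.inner_def]
  refine integral_congr_ae ?_
  filter_upwards [hf.coeFn_toLp, hg.coeFn_toLp] with x h1 h2
  rw [h1, h2]
  simp only [RCLike.inner_apply, conj_trivial]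
  ring

theorem mul_bdd {f g : X → ℝ} {K : ℝ} (hf : ∀ x, |f x| ≤ K) (hg : ∀ x, |g x| ≤ K) :
    ∀ x, |f x * g x| ≤ K * K := fun x => by
  rw [abs_mul]
  exact mul_le_mul (hf x) (hg x) (abs_nonneg _) ((abs_nonneg _).trans (hf x))

theorem norm_sum (f : ℕ → X → ℝ) (hf : ∀ j, Measurable (f j)) {K : ℝ} (hK : ∀ j x, |f j x| ≤ K)
    (c : ℝ) (s : Finset ℕ) :
    ‖c • ∑ j ∈ s, (mem_bdd (μ := μ) (hf j) (hK j)).toLp (f j)‖ ^ 2 =
      ∫ x, (c * ∑ j ∈ s, f j x) ^ 2 ∂μ := by
  rw [← real_inner_self_eq_norm_sq, real_inner_smul_left, real_inner_smul_right, sum_inner]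
  have h1 : ∀ x, (c * ∑ j ∈ s, f j x) ^ 2 = c * (c * ∑ i ∈ s, ∑ j ∈ s, f i x * f j x) := by
    intro x
    rw [← Finset.sum_mul_sum]
    ring
  have h2 : ∀ i j, Integrable (fun x => f i x * f j x) μ := fun i j =>
    int_bdd ((hf i).mul (hf j)) (mul_bdd (hK i) (hK j))
  simp_rw [h1]
  rw [integral_const_mul, integral_const_mul, integral_finsetSum s fun i _ =>
    integrable_finsetSum s fun j _ => h2 i j]
  congr 2
  refine Finset.sum_congr rfl fun i _ => ?_
  rw [inner_sum, integral_finsetSum s fun j _ => h2 i j]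
  exact Finset.sum_congr rfl fun j _ => inner_toLp _ _

end VCx

open VCx in
theorem vc (h1 : S_VDC) (h2 : S_ME) : S_VC := by
  intro X _ μ _ T hT hTn g hg ⟨K, hK⟩ hg0 ε hε
  have hK0 : ∀ x : X, 0 ≤ K := fun x => (abs_nonneg _).trans (hK x)
  have hne : Nonempty X := by
    by_contra h
    rw [not_nonempty_iff] at h
    have h3 : μ Set.univ = 0 := by
      rw [Set.univ_eq_empty_iff.2 h, measure_empty]
    rw [measure_univ] at h3
    exact one_ne_zero h3
  have hK0' : 0 ≤ K := hK0 hne.some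
  set f : ℕ → ℕ → X → ℝ := fun M j x => g (T^[(M + j) ^ 2] x) with hf
  have hfm : ∀ M j, Measurable (f M j) := fun M j => hg.comp (hT.measurable.iterate _)
  have hfK : ∀ M j x, |f M j x| ≤ K := fun M j x => hK _
  set u : ℕ → ℕ → Lp ℝ 2 μ := fun M j => (mem_bdd (μ := μ) (hfm M j) (hfK M j)).toLp (f M j)
    with hu
  have hsq : ∀ M H : ℕ, ‖(1 / (H : ℝ)) • ∑ j ∈ Finset.range H, u M j‖ ^ 2 =
      ∫ x, ((1 / (H : ℝ)) * ∑ j ∈ Finset.range H, g (T^[(M + j) ^ 2] x)) ^ 2 ∂μ := fun M H =>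
    norm_sum (f M) (hfm M) (hfK M) _ _
  have hbd : ∀ M j, ‖u M j‖ ≤ K := by
    intro M j
    have h3 : ‖u M j‖ ^ 2 ≤ K ^ 2 := by
      rw [← real_inner_self_eq_norm_sq, hu]
      simp only
      rw [inner_toLp]
      calc ∫ x, f M j x * f M j x ∂μ ≤ ∫ _x, K ^ 2 ∂μ := by
            refine integral_mono (int_bdd ((hfm M j).mul (hfm M j)) (mul_bdd (hfK M j) (hfK M j)))
              (integrable_const _) fun x => ?_
            have h4 := mul_bdd (hfK M j) (hfK M j) x
            have h5 := le_abs_self (f M j x * f M j x)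
            show f M j x * f M j x ≤ K ^ 2
            nlinarith
        _ = K ^ 2 := by simp
    exact le_of_sq_le_sq h3 hK0'
  have hcorr : ∀ h : ℕ, 1 ≤ h → ∀ ε : ℝ, 0 < ε → ∃ H₀ : ℕ, ∀ H : ℕ, H₀ ≤ H → ∀ M : ℕ,
      |(1 / (H : ℝ)) * ∑ j ∈ Finset.range H, inner ℝ (u M (j + h)) (u M j)| ≤ ε := by
    intro h hh ε hε
    have hme := h2 X μ (T^[2 * h]) (hTn (2 * h) (by omega)) g hg ⟨K, hK⟩ hg0
    set δ : ℝ := ε / (K + 1) with hδ
    have hδ0 : 0 < δ := by positivity
    obtain ⟨H₀, hH₀⟩ := eventually_atTop.1 (hme.eventually (gt_mem_nhds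
      (show (0 : ℝ) < δ ^ 2 by positivity)))
    refine ⟨H₀, fun H hH M => ?_⟩
    have h3 := hH₀ H hH
    set A : X → ℝ := fun x => (1 / (H : ℝ)) * ∑ j ∈ Finset.range H, g ((T^[2 * h])^[j] x) with hA
    set s : ℕ := 2 * h * M + h ^ 2 with hs
    have hcor : ∀ j, inner ℝ (u M (j + h)) (u M j) =
        ∫ x, g ((T^[2 * h])^[j] (T^[s] x)) * g x ∂μ := by
      intro j
      rw [hu]
      simp only
      rw [inner_toLp]
      have h4 : ∀ x, f M (j + h) x * f M j x =
          (fun x => g ((T^[2 * h])^[j] (T^[s] x)) * g x) (T^[(M + j) ^ 2] x) := by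
        intro x
        simp only [hf]
        rw [← Function.iterate_mul, ← Function.iterate_add_apply, ← Function.iterate_add_apply]
        congr 3
        rw [hs]
        ring_nf
      simp_rw [h4]
      have h5 := hT.iterate ((M + j) ^ 2)
      have hm : Measurable fun x => g ((T^[2 * h])^[j] (T^[s] x)) * g x :=
        (hg.comp (((hT.measurable.iterate (2 * h)).iterate j).comp
          (hT.measurable.iterate s))).mul hg
      calc ∫ x, (fun x => g ((T^[2 * h])^[j] (T^[s] x)) * g x) (T^[(M + j) ^ 2] x) ∂μ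
          = ∫ y, g ((T^[2 * h])^[j] (T^[s] y)) * g y ∂(μ.map (T^[(M + j) ^ 2])) :=
            (integral_map h5.measurable.aemeasurable hm.aestronglyMeasurable).symm
        _ = _ := by rw [h5.map_eq]
    have hgj : ∀ j, Measurable fun x => g ((T^[2 * h])^[j] x) := fun j =>
      hg.comp ((hT.measurable.iterate (2 * h)).iterate j)
    have hAm : Measurable A :=
      (Finset.measurable_fun_sum _ fun j _ => hgj j).const_mul _
    have hAK : ∀ x, |A x| ≤ K := by
      intro x
      show |(1 / (H : ℝ)) * ∑ j ∈ Finset.range H, g ((T^[2 * h])^[j] x)| ≤ K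
      rcases Nat.eq_zero_or_pos H with h0 | h0
      · subst h0
        simp [hK0']
      have hH0 : (0 : ℝ) < H := by exact_mod_cast h0
      rw [abs_mul, abs_of_pos (show (0 : ℝ) < 1 / (H : ℝ) by positivity)]
      calc _ ≤ (1 / (H : ℝ)) * ∑ _j ∈ Finset.range H, K :=
            mul_le_mul_of_nonneg_left ((Finset.abs_sum_le_sum_abs _ _).trans
              (Finset.sum_le_sum fun j _ => hK _)) (by positivity)
        _ = K := by
            rw [Finset.sum_const, Finset.card_range, nsmul_eq_mul]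
            field_simp
    have h6 : (1 / (H : ℝ)) * ∑ j ∈ Finset.range H, inner ℝ (u M (j + h)) (u M j) =
        ∫ x, A (T^[s] x) * g x ∂μ := by
      simp_rw [hcor]
      have hint : ∀ j, Integrable (fun x => g ((T^[2 * h])^[j] (T^[s] x)) * g x) μ := fun j =>
        int_bdd (((hgj j).comp (hT.measurable.iterate s)).mul hg) (mul_bdd (fun x => hK _) hK)
      rw [← integral_finsetSum (Finset.range H) fun j _ => hint j, ← integral_const_mul]
      refine integral_congr_ae (ae_of_all _ fun x => ?_)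
      show (1 / (H : ℝ)) * ∑ j ∈ Finset.range H, g ((T^[2 * h])^[j] (T^[s] x)) * g x =
        ((1 / (H : ℝ)) * ∑ j ∈ Finset.range H, g ((T^[2 * h])^[j] (T^[s] x))) * g x
      rw [← Finset.sum_mul]
      ring
    rw [h6]
    have hAs : Measurable fun x => A (T^[s] x) := hAm.comp (hT.measurable.iterate s)
    have h7 : ∫ x, (A (T^[s] x)) ^ 2 ∂μ = ∫ x, (A x) ^ 2 ∂μ := by
      have h8 := hT.iterate s
      calc ∫ x, (A (T^[s] x)) ^ 2 ∂μ = ∫ y, (A y) ^ 2 ∂(μ.map (T^[s])) :=
            (integral_map h8.measurable.aemeasurable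
              (hAm.pow_const 2).aestronglyMeasurable).symm
        _ = _ := by rw [h8.map_eq]
    have hsqi : Integrable (fun x => (A (T^[s] x)) ^ 2) μ := by
      refine int_bdd (hAs.pow_const 2) (K := K ^ 2) fun x => ?_
      rw [abs_pow]
      exact pow_le_pow_left₀ (abs_nonneg _) (hAK _) 2
    calc |∫ x, A (T^[s] x) * g x ∂μ| ≤ ∫ x, |A (T^[s] x) * g x| ∂μ :=
          abs_integral_le_integral_abs
      _ ≤ ∫ x, (K / 2) * (δ + (1 / δ) * (A (T^[s] x)) ^ 2) ∂μ := by
          refine integral_mono (int_bdd (hAs.mul hg) (mul_bdd (fun x => hAK _) hK)).abs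
            (((integrable_const _).add (hsqi.const_mul _)).const_mul _) fun x => ?_
          show |A (T^[s] x) * g x| ≤ (K / 2) * (δ + (1 / δ) * (A (T^[s] x)) ^ 2)
          rw [abs_mul]
          have h9 : |A (T^[s] x)| ≤ (δ + (1 / δ) * (A (T^[s] x)) ^ 2) / 2 := by
            rw [← sq_abs (A (T^[s] x))]
            generalize |A (T^[s] x)| = a
            have h12 : 0 ≤ (a - δ) ^ 2 / δ := by positivity
            have h10 : (a - δ) ^ 2 / δ = (1 / δ) * a ^ 2 - 2 * a + δ := by
              field_simp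
              ring
            linarith
          calc _ ≤ |A (T^[s] x)| * K := mul_le_mul_of_nonneg_left (hK x) (abs_nonneg _)
            _ ≤ (δ + (1 / δ) * (A (T^[s] x)) ^ 2) / 2 * K := mul_le_mul_of_nonneg_right h9 hK0'
            _ = _ := by ring
      _ = (K / 2) * (δ + (1 / δ) * ∫ x, (A x) ^ 2 ∂μ) := by
          rw [integral_const_mul, integral_add (integrable_const _) (hsqi.const_mul _),
            integral_const_mul, h7]
          simp
      _ ≤ (K / 2) * (δ + (1 / δ) * δ ^ 2) := by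
          have h13 : ∫ x, (A x) ^ 2 ∂μ ≤ δ ^ 2 := h3.le
          have h14 : (1 / δ) * ∫ x, (A x) ^ 2 ∂μ ≤ (1 / δ) * δ ^ 2 :=
            mul_le_mul_of_nonneg_left h13 (by positivity)
          exact mul_le_mul_of_nonneg_left (by linarith) (by positivity)
      _ = K * δ := by
          field_simp
          ring
      _ ≤ ε := by
          have h15 : K * δ = ε * (K / (K + 1)) := by
            rw [hδ]
            ring
          have h11 : K / (K + 1) ≤ 1 := by
            rw [div_le_one (by positivity)]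
            linarith
          rw [h15]
          nlinarith
  obtain ⟨H₀, hH₀⟩ := h1 (Lp ℝ 2 μ) K u hbd hcorr (Real.sqrt ε) (Real.sqrt_pos.2 hε)
  refine ⟨max H₀ 1, le_max_right _ _, fun M => ?_⟩
  rw [← hsq M (max H₀ 1)]
  have h6 := hH₀ (max H₀ 1) (le_max_left _ _) M
  calc _ ≤ (Real.sqrt ε) ^ 2 := pow_le_pow_left₀ (norm_nonneg _) h6 2
    _ = ε := Real.sq_sqrt hε.le

end Pool.Agent.W5h47.JE
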