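import Pool.Agent.W5h47.JE.Defs

/-! Piece (VDC): van der Corput, uniformly in a parameter (MP_ce5406_an). -/

open MeasureTheory Filter Topology

namespace Pool.Agent.W5h47.JE

namespace PVDC

theorem shift_sum {F : Type*} [SeminormedAddCommGroup F] (a : ℕ → F) (B : ℝ)
    (ha : ∀ j, ‖a j‖ ≤ B) (H r : ℕ) :
    ‖∑ j ∈ Finset.range H, a (j + r) - ∑ j ∈ Finset.range H, a j‖ ≤ 2 * r * B := by
  have h1 : ∑ j ∈ Finset.range (r + H), a j = ∑ j ∈ Finset.range r, a j +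
      ∑ j ∈ Finset.range H, a (r + j) := Finset.sum_range_add _ _ _
  have h2 : ∑ j ∈ Finset.range (H + r), a j = ∑ j ∈ Finset.range H, a j +
      ∑ j ∈ Finset.range r, a (H + j) := Finset.sum_range_add _ _ _
  rw [add_comm H r] at h2
  have h3 : ∑ j ∈ Finset.range H, a (j + r) = ∑ j ∈ Finset.range H, a (r + j) :=
    Finset.sum_congr rfl fun j _ => by rw [add_comm]
  have h4 : ∑ j ∈ Finset.range H, a (j + r) - ∑ j ∈ Finset.range H, a j =
      ∑ j ∈ Finset.range r, a (H + j) - ∑ j ∈ Finset.range r, a j := by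
    rw [h3]
    have h5 : ∑ j ∈ Finset.range H, a (r + j) =
        ∑ j ∈ Finset.range (r + H), a j - ∑ j ∈ Finset.range r, a j := by rw [h1]; abel
    rw [h5, h2]; abel
  rw [h4]
  have h6 : ‖∑ j ∈ Finset.range r, a (H + j)‖ ≤ r * B := by
    refine (norm_sum_le _ _).trans ?_
    refine (Finset.sum_le_sum fun j _ => ha (H + j)).trans ?_
    simp
  have h7 : ‖∑ j ∈ Finset.range r, a j‖ ≤ r * B := by
    refine (norm_sum_le _ _).trans ?_
    refine (Finset.sum_le_sum fun j _ => ha j).trans ?_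
    simp
  have h8 := norm_sub_le (∑ j ∈ Finset.range r, a (H + j)) (∑ j ∈ Finset.range r, a j)
  linarith

variable {E : Type*} [NormedAddCommGroup E] [InnerProductSpace ℝ E]

theorem corr_bound (w : ℕ → E) (K δ : ℝ) (R H : ℕ) (hw : ∀ j, ‖w j‖ ≤ K) (hK : 0 ≤ K)
    (hδ : ∀ h, 1 ≤ h → h < R → |∑ j ∈ Finset.range H, inner ℝ (w (j + h)) (w j)| ≤ δ * H)
    {r s : ℕ} (hr : r < R) (hsr : s < r) :
    |∑ j ∈ Finset.range H, inner ℝ (w (j + r)) (w (j + s))| ≤ δ * H + 2 * R * K ^ 2 := by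
  have h1 := hδ (r - s) (by omega) (by omega)
  have h2 := shift_sum (fun j => (inner ℝ (w (j + (r - s))) (w j) : ℝ)) (K ^ 2) (by
    intro j
    refine (norm_inner_le_norm _ _).trans ?_
    rw [pow_two]
    exact mul_le_mul (hw _) (hw _) (norm_nonneg _) hK) H s
  have h3 : ∑ j ∈ Finset.range H, (inner ℝ (w (j + s + (r - s))) (w (j + s)) : ℝ) =
      ∑ j ∈ Finset.range H, inner ℝ (w (j + r)) (w (j + s)) :=
    Finset.sum_congr rfl fun j _ => by rw [show j + s + (r - s) = j + r by omega]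
  simp only [h3] at h2
  rw [Real.norm_eq_abs] at h2
  have h4 : 2 * (s : ℝ) * K ^ 2 ≤ 2 * R * K ^ 2 := by
    have : (s : ℝ) ≤ R := by exact_mod_cast (by omega : s ≤ R)
    have := mul_le_mul_of_nonneg_right this (sq_nonneg K)
    linarith
  have h5 := abs_sub_abs_le_abs_sub (∑ j ∈ Finset.range H, (inner ℝ (w (j + r)) (w (j + s)) : ℝ))
    (∑ j ∈ Finset.range H, inner ℝ (w (j + (r - s))) (w j))
  linarith

theorem finite_vdc (w : ℕ → E) (K δ : ℝ) (R H : ℕ) (hw : ∀ j, ‖w j‖ ≤ K) (hK : 0 ≤ K)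
    (hδ0 : 0 ≤ δ)
    (hδ : ∀ h, 1 ≤ h → h < R → |∑ j ∈ Finset.range H, inner ℝ (w (j + h)) (w j)| ≤ δ * H) :
    ‖∑ j ∈ Finset.range H, ∑ r ∈ Finset.range R, w (j + r)‖ ^ 2 ≤
      H * (R * (H * K ^ 2) + R ^ 2 * (δ * H + 2 * R * K ^ 2)) := by
  set V : ℕ → E := fun j => ∑ r ∈ Finset.range R, w (j + r) with hV
  have h1 : ‖∑ j ∈ Finset.range H, V j‖ ^ 2 ≤ H * ∑ j ∈ Finset.range H, ‖V j‖ ^ 2 := by
    have h2 : ‖∑ j ∈ Finset.range H, V j‖ ≤ ∑ j ∈ Finset.range H, ‖V j‖ := norm_sum_le _ _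
    have h3 : (∑ j ∈ Finset.range H, ‖V j‖) ^ 2 ≤ H * ∑ j ∈ Finset.range H, ‖V j‖ ^ 2 := by
      have := sq_sum_le_card_mul_sum_sq (s := Finset.range H) (f := fun j => ‖V j‖)
      simpa using this
    exact (pow_le_pow_left₀ (norm_nonneg _) h2 2).trans h3
  have h4 : ∑ j ∈ Finset.range H, ‖V j‖ ^ 2 = ∑ r ∈ Finset.range R, ∑ s ∈ Finset.range R,
      ∑ j ∈ Finset.range H, (inner ℝ (w (j + r)) (w (j + s)) : ℝ) := by
    have h5 : ∀ j, ‖V j‖ ^ 2 = ∑ r ∈ Finset.range R, ∑ s ∈ Finset.range R,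
        (inner ℝ (w (j + r)) (w (j + s)) : ℝ) := by
      intro j
      rw [← real_inner_self_eq_norm_sq, hV]
      simp only [sum_inner, inner_sum]
      exact Finset.sum_comm
    simp only [h5]
    rw [Finset.sum_comm]
    refine Finset.sum_congr rfl fun r _ => ?_
    rw [Finset.sum_comm]
  have h6 : ∀ r ∈ Finset.range R, ∀ s ∈ Finset.range R,
      ∑ j ∈ Finset.range H, (inner ℝ (w (j + r)) (w (j + s)) : ℝ) ≤
        (if r = s then (H : ℝ) * K ^ 2 else 0) + (δ * H + 2 * R * K ^ 2) := by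
    intro r hr s hs
    rw [Finset.mem_range] at hr hs
    have hB : 0 ≤ δ * H + 2 * R * K ^ 2 := by positivity
    rcases lt_trichotomy r s with h | h | h
    · rw [if_neg h.ne, zero_add]
      have := corr_bound w K δ R H hw hK hδ hs h
      refine (le_abs_self _).trans ?_
      refine le_trans (le_of_eq ?_) this
      congr 1
      exact Finset.sum_congr rfl fun j _ => real_inner_comm _ _
    · subst h
      rw [if_pos rfl]
      have : ∑ j ∈ Finset.range H, (inner ℝ (w (j + r)) (w (j + r)) : ℝ) ≤ H * K ^ 2 := by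
        refine (Finset.sum_le_sum (g := fun _ => K ^ 2) fun j _ => ?_).trans (by simp)
        rw [real_inner_self_eq_norm_sq]
        exact pow_le_pow_left₀ (norm_nonneg _) (hw _) 2
      linarith
    · rw [if_neg h.ne', zero_add]
      exact (le_abs_self _).trans (corr_bound w K δ R H hw hK hδ hr h)
  have h7 : ∑ j ∈ Finset.range H, ‖V j‖ ^ 2 ≤
      R * (H * K ^ 2) + R ^ 2 * (δ * H + 2 * R * K ^ 2) := by
    rw [h4]
    refine (Finset.sum_le_sum fun r hr => Finset.sum_le_sum fun s hs => h6 r hr s hs).trans ?_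
    have h8 : ∀ r ∈ Finset.range R, ∑ s ∈ Finset.range R,
        ((if r = s then (H : ℝ) * K ^ 2 else 0) + (δ * H + 2 * R * K ^ 2)) =
        H * K ^ 2 + R * (δ * H + 2 * R * K ^ 2) := by
      intro r hr
      rw [Finset.sum_add_distrib, Finset.sum_ite_eq, if_pos hr, Finset.sum_const,
        Finset.card_range, nsmul_eq_mul]
    rw [Finset.sum_congr rfl h8]
    simp only [Finset.sum_const, Finset.card_range, nsmul_eq_mul]
    apply le_of_eq
    ring
  exact h1.trans (mul_le_mul_of_nonneg_left h7 (by positivity))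

theorem sum_close (w : ℕ → E) (K : ℝ) (R H : ℕ) (hw : ∀ j, ‖w j‖ ≤ K) (hK : 0 ≤ K) :
    ‖∑ j ∈ Finset.range H, ∑ r ∈ Finset.range R, w (j + r) -
      (R : ℝ) • ∑ j ∈ Finset.range H, w j‖ ≤ 2 * R ^ 2 * K := by
  have h1 : ∑ j ∈ Finset.range H, ∑ r ∈ Finset.range R, w (j + r) -
      (R : ℝ) • ∑ j ∈ Finset.range H, w j =
      ∑ r ∈ Finset.range R, (∑ j ∈ Finset.range H, w (j + r) - ∑ j ∈ Finset.range H, w j) := by
    rw [Finset.sum_comm, Finset.sum_sub_distrib]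
    simp [Nat.cast_smul_eq_nsmul]
  rw [h1]
  refine (norm_sum_le _ _).trans ?_
  have h2 : ∀ r ∈ Finset.range R,
      ‖∑ j ∈ Finset.range H, w (j + r) - ∑ j ∈ Finset.range H, w j‖ ≤ 2 * R * K := by
    intro r hr
    rw [Finset.mem_range] at hr
    refine (shift_sum w K hw H r).trans ?_
    have : (r : ℝ) ≤ R := by exact_mod_cast hr.le
    have := mul_le_mul_of_nonneg_right this hK
    linarith
  refine (Finset.sum_le_sum h2).trans ?_
  simp only [Finset.sum_const, Finset.card_range, nsmul_eq_mul]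
  apply le_of_eq
  ring

end PVDC

open PVDC in
theorem vdc : S_VDC := by
  intro E _ _ K u hu hcorr ε hε
  have hK : 0 ≤ K := (norm_nonneg _).trans (hu 0 0)
  obtain ⟨R, hR⟩ := exists_nat_ge (12 * K ^ 2 / ε ^ 2 + 1)
  have hR1 : (1 : ℝ) ≤ R := by
    have : 0 ≤ 12 * K ^ 2 / ε ^ 2 := by positivity
    linarith
  have hRK : 12 * K ^ 2 ≤ R * ε ^ 2 := by
    have h1 : 12 * K ^ 2 / ε ^ 2 ≤ R := by linarith
    rwa [div_le_iff₀ (by positivity)] at h1
  have hδ : (0 : ℝ) < ε ^ 2 / 12 := by positivity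
  -- thresholds for the correlations
  have h1 : ∀ h : ℕ, ∃ H₀ : ℕ, 1 ≤ h → ∀ H : ℕ, H₀ ≤ H → ∀ M : ℕ,
      |(1 / (H : ℝ)) * ∑ j ∈ Finset.range H, inner ℝ (u M (j + h)) (u M j)| ≤ ε ^ 2 / 12 := by
    intro h
    by_cases hh : 1 ≤ h
    · obtain ⟨H₀, hH₀⟩ := hcorr h hh (ε ^ 2 / 12) hδ
      exact ⟨H₀, fun _ => hH₀⟩
    · exact ⟨0, fun h' => absurd h' hh⟩
  choose H₁ hH₁ using h1
  obtain ⟨N1, hN1⟩ := exists_nat_ge (24 * R * K ^ 2 / ε ^ 2)
  obtain ⟨N2, hN2⟩ := exists_nat_ge (4 * R * K / ε)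
  refine ⟨(∑ h ∈ Finset.range R, H₁ h) + N1 + N2 + 1, ?_⟩
  intro H hH M
  have hH1 : (1 : ℝ) ≤ H := by exact_mod_cast (by omega : 1 ≤ H)
  have hHN1 : 24 * R * K ^ 2 ≤ H * ε ^ 2 := by
    have h2 : (N1 : ℝ) ≤ H := by exact_mod_cast (by omega : N1 ≤ H)
    have h3 : 24 * R * K ^ 2 / ε ^ 2 ≤ H := hN1.trans h2
    rwa [div_le_iff₀ (by positivity)] at h3
  have hHN2 : 4 * R * K ≤ H * ε := by
    have h2 : (N2 : ℝ) ≤ H := by exact_mod_cast (by omega : N2 ≤ H)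
    have h3 : 4 * R * K / ε ≤ H := hN2.trans h2
    rwa [div_le_iff₀ hε] at h3
  have hcor : ∀ h, 1 ≤ h → h < R →
      |∑ j ∈ Finset.range H, inner ℝ (u M (j + h)) (u M j)| ≤ ε ^ 2 / 12 * H := by
    intro h hh hhR
    have h2 : H₁ h ≤ ∑ h ∈ Finset.range R, H₁ h :=
      Finset.single_le_sum (f := H₁) (fun _ _ => Nat.zero_le _) (Finset.mem_range.2 hhR)
    have h3 := hH₁ h hh H (by omega) M
    rw [abs_mul, abs_of_nonneg (by positivity : (0 : ℝ) ≤ 1 / H), one_div,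
      inv_mul_le_iff₀ (by linarith)] at h3
    linarith
  have h4 := finite_vdc (u M) K (ε ^ 2 / 12) R H (hu M) hK hδ.le hcor
  have h5 := sum_close (u M) K R H (hu M) hK
  set S := ∑ j ∈ Finset.range H, u M j with hS
  set W := ∑ j ∈ Finset.range H, ∑ r ∈ Finset.range R, u M (j + r) with hW
  have hR0 : (0 : ℝ) < R := by linarith
  have hH0 : (0 : ℝ) < H := by linarith
  have h6 : ‖W‖ ≤ R * H * (ε / 2) := by
    refine abs_le_of_sq_le_sq' ?_ (by positivity) |>.2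
    refine h4.trans ?_
    have e1 : (R : ℝ) * H * (H * K ^ 2) ≤ R * H * (H * (R * ε ^ 2 / 12)) := by
      have : K ^ 2 ≤ R * ε ^ 2 / 12 := by linarith
      gcongr
    have e2 : (R : ℝ) ^ 2 * H * (2 * R * K ^ 2) ≤ R ^ 2 * H * (H * ε ^ 2 / 12) := by
      have : 2 * R * K ^ 2 ≤ H * ε ^ 2 / 12 := by linarith
      gcongr
    nlinarith [e1, e2]
  have h7 : (R : ℝ) * ‖S‖ ≤ R * (H * ε) := by
    have h8 : ‖(R : ℝ) • S‖ ≤ ‖W‖ + ‖W - (R : ℝ) • S‖ := by
      have := norm_sub_le W (W - (R : ℝ) • S)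
      rwa [sub_sub_cancel] at this
    rw [norm_smul, Real.norm_of_nonneg hR0.le] at h8
    have h9 : 2 * (R : ℝ) ^ 2 * K ≤ R * H * (ε / 2) := by
      have : (R : ℝ) * (4 * R * K) ≤ R * (H * ε) := mul_le_mul_of_nonneg_left hHN2 hR0.le
      nlinarith [this]
    linarith
  have h8 : ‖S‖ ≤ H * ε := le_of_mul_le_mul_left h7 hR0
  rw [norm_smul, Real.norm_of_nonneg (by positivity), one_div, inv_mul_le_iff₀ hH0]
  exact h8

end Pool.Agent.W5h47.JE
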