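import Pool.Agent.W5h47.JE.Defs

/-! Assembly: joint ergodicity of `⌊n^{c_i}⌋²`, all `c_i < 1`. -/

set_option autoImplicit false

open MeasureTheory Filter Topology

namespace Pool.Agent.W5h47.JE

noncomputable section

variable {X : Type} [MeasurableSpace X] {μ : Measure X} [IsProbabilityMeasure μ]

/-- bounded measurable -/
def Bd (F : X → ℝ) : Prop := Measurable F ∧ ∃ K : ℝ, ∀ x, |F x| ≤ K

theorem Bd.memLp {F : X → ℝ} (h : Bd F) : MemLp F 2 μ := by
  obtain ⟨h1, K, hK⟩ := h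
  exact MemLp.of_bound h1.aestronglyMeasurable K (Eventually.of_forall fun x => by
    rw [Real.norm_eq_abs]; exact hK x)

theorem Bd.integrable {F : X → ℝ} (h : Bd F) : Integrable F μ := by
  obtain ⟨h1, K, hK⟩ := h
  exact Integrable.of_bound h1.aestronglyMeasurable K (Eventually.of_forall fun x => by
    rw [Real.norm_eq_abs]; exact hK x)

theorem Bd.mul {F G : X → ℝ} (h : Bd F) (h' : Bd G) : Bd (fun x => F x * G x) := by
  obtain ⟨h1, K, hK⟩ := h
  obtain ⟨h2, L, hL⟩ := h'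
  refine ⟨h1.mul h2, K * L, fun x => ?_⟩
  rw [abs_mul]
  exact mul_le_mul (hK x) (hL x) (abs_nonneg _) ((abs_nonneg _).trans (hK x))

theorem Bd.add {F G : X → ℝ} (h : Bd F) (h' : Bd G) : Bd (fun x => F x + G x) := by
  obtain ⟨h1, K, hK⟩ := h
  obtain ⟨h2, L, hL⟩ := h'
  exact ⟨h1.add h2, K + L, fun x => (abs_add_le _ _).trans (add_le_add (hK x) (hL x))⟩

theorem Bd.const (c : ℝ) : Bd (fun _ : X => c) := ⟨measurable_const, |c|, fun _ => le_rfl⟩

theorem Bd.comp {F : X → ℝ} (h : Bd F) {T : X → X} (hT : Measurable T) : Bd (fun x => F (T x)) := by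
  obtain ⟨h1, K, hK⟩ := h
  exact ⟨h1.comp hT, K, fun x => hK _⟩

theorem Bd.sum {ι : Type} (s : Finset ι) {F : ι → X → ℝ} (h : ∀ i ∈ s, Bd (F i)) :
    Bd (fun x => ∑ i ∈ s, F i x) := by
  classical
  induction s using Finset.induction_on with
  | empty => simpa using Bd.const (X := X) 0
  | insert a s ha ih =>
    have := (h a (Finset.mem_insert_self _ _)).add (ih fun i hi => h i (Finset.mem_insert_of_mem hi))
    simpa [Finset.sum_insert ha] using this

theorem Bd.prod {ι : Type} (s : Finset ι) {F : ι → X → ℝ} (h : ∀ i ∈ s, Bd (F i)) :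
    Bd (fun x => ∏ i ∈ s, F i x) := by
  classical
  induction s using Finset.induction_on with
  | empty => simpa using Bd.const (X := X) 1
  | insert a s ha ih =>
    have := (h a (Finset.mem_insert_self _ _)).mul (ih fun i hi => h i (Finset.mem_insert_of_mem hi))
    simpa [Finset.prod_insert ha] using this

open Classical in
/-- the class of a function -/
def tl (μ : Measure X) (F : X → ℝ) : Lp ℝ 2 μ := if h : MemLp F 2 μ then h.toLp F else 0

theorem tl_add {F G : X → ℝ} (hF : Bd F) (hG : Bd G) :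
    tl μ (fun x => F x + G x) = tl μ F + tl μ G := by
  have h1 : MemLp (fun x => F x + G x) 2 μ := (hF.add hG).memLp
  rw [tl, tl, tl, dif_pos h1, dif_pos hF.memLp, dif_pos hG.memLp]
  exact MemLp.toLp_add hF.memLp hG.memLp

theorem tl_smul {F : X → ℝ} (hF : Bd F) (c : ℝ) :
    tl μ (fun x => c * F x) = c • tl μ F := by
  have h1 : MemLp (fun x => c * F x) 2 μ := ((Bd.const c).mul hF).memLp
  rw [tl, tl, dif_pos h1, dif_pos hF.memLp]
  exact MemLp.toLp_const_smul c hF.memLp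

theorem tl_sum {ι : Type} (s : Finset ι) {F : ι → X → ℝ} (h : ∀ i ∈ s, Bd (F i)) :
    tl μ (fun x => ∑ i ∈ s, F i x) = ∑ i ∈ s, tl μ (F i) := by
  classical
  induction s using Finset.induction_on with
  | empty =>
    have := tl_smul (μ := μ) (Bd.const (X := X) 0) 0
    simpa using this
  | insert a s ha ih =>
    have h1 := tl_add (μ := μ) (h a (Finset.mem_insert_self _ _))
      (Bd.sum s fun i hi => h i (Finset.mem_insert_of_mem hi))
    rw [Finset.sum_insert ha, ← ih fun i hi => h i (Finset.mem_insert_of_mem hi), ← h1]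
    congr 1
    funext x
    rw [Finset.sum_insert ha]

theorem norm_tl {F : X → ℝ} (h : Bd F) : ‖tl μ F‖ ^ 2 = ∫ x, F x ^ 2 ∂μ := by
  rw [tl, dif_pos h.memLp, ← real_inner_self_eq_norm_sq, L2.inner_def]
  refine integral_congr_ae ?_
  filter_upwards [h.memLp.coeFn_toLp (μ := μ)] with x hx
  rw [hx]
  simp [sq]

theorem norm_tl_le {F : X → ℝ} (h : Bd F) {K : ℝ} (hK0 : 0 ≤ K) (hK : ∀ x, |F x| ≤ K) :
    ‖tl μ F‖ ≤ K := by
  have h1 : ‖tl μ F‖ ^ 2 ≤ K ^ 2 := by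
    rw [norm_tl h]
    calc ∫ x, F x ^ 2 ∂μ ≤ ∫ _, K ^ 2 ∂μ := by
          refine integral_mono_of_nonneg (Eventually.of_forall fun x => sq_nonneg _)
            (integrable_const _) (Eventually.of_forall fun x => ?_)
          exact sq_le_sq' (neg_le_of_abs_le (hK x)) (le_of_abs_le (hK x))
      _ = K ^ 2 := by simp
  exact le_of_sq_le_sq h1 hK0

theorem key (hVC : S_VC) (hSH : S_SH) {k : ℕ} (c : Fin k → ℝ) (hc0 : ∀ i, 0 < c i)
    (hc1 : ∀ i, c i < 1) (T : X → X) (hT : MeasurePreserving T μ μ)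
    (hTe : ∀ n : ℕ, 1 ≤ n → Ergodic (T^[n]) μ) (s : Finset (Fin k)) (a : Fin k)
    (has : ∀ i ∈ s, c i < c a) (f : Fin k → X → ℝ) (hf : ∀ i, Bd (f i)) (g : X → ℝ) (hg : Bd g)
    (hg0 : ∫ x, g x ∂μ = 0) :
    Tendsto (fun N : ℕ => ∫ x, ((1 / (N : ℝ)) * ∑ n ∈ Finset.Icc 1 N,
      ((∏ i ∈ s, f i (T^[⌊(n : ℝ) ^ (c i)⌋₊ ^ 2] x)) * g (T^[⌊(n : ℝ) ^ (c a)⌋₊ ^ 2] x))) ^ 2 ∂μ)
      atTop (𝓝 0) := by
  classical
  have hTm : ∀ n, Measurable (T^[n]) := fun n => hT.measurable.iterate n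
  -- the product
  let P : (s → ℕ) → X → ℝ := fun b x => ∏ i : s, f i (T^[b i ^ 2] x)
  have hP : ∀ b, Bd (P b) := fun b => Bd.prod _ fun i _ => (hf i).comp (hTm _)
  obtain ⟨Kf, hKf0, hKf⟩ : ∃ K : ℝ, 0 ≤ K ∧ ∀ b x, |P b x| ≤ K := by
    choose K hK using fun i => (hf i).2
    refine ⟨∏ i : s, |K i|, Finset.prod_nonneg fun i _ => abs_nonneg _, fun b x => ?_⟩
    rw [Finset.abs_prod]
    exact Finset.prod_le_prod (fun i _ => abs_nonneg _) fun i _ => (hK i _).trans (le_abs_self _)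
  obtain ⟨Kg, hKg⟩ := hg.2
  have hKg0 : 0 ≤ |Kg| := abs_nonneg _
  let Y : (s → ℕ) → ℕ → X → ℝ := fun b m x => P b x * g (T^[m ^ 2] x)
  have hY : ∀ b m, Bd (Y b m) := fun b m => (hP b).mul (hg.comp (hTm _))
  let y : (s → ℕ) → ℕ → Lp ℝ 2 μ := fun b m => tl μ (Y b m)
  have hyK : ∀ b m, ‖y b m‖ ≤ Kf * |Kg| := fun b m =>
    norm_tl_le (hY b m) (by positivity) fun x => by
      rw [abs_mul]
      exact mul_le_mul (hKf b x) ((hKg _).trans (le_abs_self _)) (abs_nonneg _) hKf0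
  let θ : ℕ → s → ℕ := fun n i => ⌊(n : ℝ) ^ (c i)⌋₊
  let φ : ℕ → ℕ := fun n => ⌊(n : ℝ) ^ (c a)⌋₊
  have hsh : ∀ j : ℕ, Tendsto (fun N : ℕ => (1 / (N : ℝ)) • ∑ n ∈ Finset.Icc 1 N,
      (y (θ n) (φ n + j) - y (θ n) (φ n + (j + 1)))) atTop (𝓝 0) := by
    intro j
    have := hSH (Lp ℝ 2 μ) s (c a) (fun i => c i) (hc1 a) (hc0 a) (fun i => hc0 _)
      (fun i => has i i.2) (fun b m => y b (m + j)) (Kf * |Kg|) (fun b m => hyK b _)
    refine this.congr fun N => ?_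
    congr 1
    refine Finset.sum_congr rfl fun n _ => ?_
    simp only [θ, φ]
    congr 2
    ring
  have hsh' : ∀ j : ℕ, Tendsto (fun N : ℕ => (1 / (N : ℝ)) • ∑ n ∈ Finset.Icc 1 N,
      (y (θ n) (φ n) - y (θ n) (φ n + j))) atTop (𝓝 0) := by
    intro j
    induction j with
    | zero => simp
    | succ j ih =>
      have := ih.add (hsh j)
      rw [add_zero] at this
      refine this.congr fun N => ?_
      rw [← smul_add, ← Finset.sum_add_distrib]
      congr 1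
      refine Finset.sum_congr rfl fun n _ => ?_
      abel
  -- the mean over `j < H`
  have hmean : ∀ H : ℕ, 1 ≤ H → Tendsto (fun N : ℕ => (1 / (N : ℝ)) • ∑ n ∈ Finset.Icc 1 N,
      (y (θ n) (φ n) - (1 / (H : ℝ)) • ∑ j ∈ Finset.range H, y (θ n) (φ n + j))) atTop (𝓝 0) := by
    intro H hH
    have h1 : Tendsto (fun N : ℕ => (1 / (H : ℝ)) • ∑ j ∈ Finset.range H, (1 / (N : ℝ)) •
        ∑ n ∈ Finset.Icc 1 N, (y (θ n) (φ n) - y (θ n) (φ n + j))) atTop (𝓝 0) := by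
      have h2 := (tendsto_finsetSum (Finset.range H) fun j _ => hsh' j).const_smul (1 / (H : ℝ))
      simpa using h2
    refine h1.congr fun N => ?_
    have hH0 : (H : ℝ) ≠ 0 := by positivity
    rw [← Finset.smul_sum, Finset.sum_comm, smul_comm]
    congr 1
    rw [Finset.smul_sum]
    refine Finset.sum_congr rfl fun n _ => ?_
    rw [Finset.sum_sub_distrib, Finset.sum_const, Finset.card_range, smul_sub,
      ← Nat.cast_smul_eq_nsmul ℝ, smul_smul, one_div, inv_mul_cancel₀ hH0, one_smul]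
  have hnorm : Tendsto (fun N : ℕ => ‖(1 / (N : ℝ)) • ∑ n ∈ Finset.Icc 1 N, y (θ n) (φ n)‖)
      atTop (𝓝 0) := by
    rw [Metric.tendsto_atTop]
    intro ε hε
    obtain ⟨H, hH, hVCH⟩ := hVC X μ T hT hTe g hg.1 hg.2 hg0 ((ε / (2 * (Kf + 1))) ^ 2)
      (by positivity)
    obtain ⟨N₀, hN₀⟩ := Metric.tendsto_atTop.1 (hmean H hH) (ε / 2) (by positivity)
    refine ⟨N₀, fun N hN => ?_⟩
    have h1 := hN₀ N hN
    rw [dist_zero_right] at h1
    have hb : ∀ b m, ‖(1 / (H : ℝ)) • ∑ j ∈ Finset.range H, y b (m + j)‖ ≤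
        Kf * (ε / (2 * (Kf + 1))) := by
      intro b m
      have hG : Bd (fun x => (1 / (H : ℝ)) * ∑ j ∈ Finset.range H, g (T^[(m + j) ^ 2] x)) :=
        (Bd.const _).mul (Bd.sum _ fun j _ => hg.comp (hTm _))
      have e1 : (1 / (H : ℝ)) • ∑ j ∈ Finset.range H, y b (m + j) =
          tl μ (fun x => P b x * ((1 / (H : ℝ)) * ∑ j ∈ Finset.range H,
            g (T^[(m + j) ^ 2] x))) := by
        rw [← tl_sum (μ := μ) (F := fun j => Y b (m + j)) _ (fun j _ => hY _ _),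
          ← tl_smul (Bd.sum _ fun j _ => hY _ _)]
        congr 1
        funext x
        simp only [Y]
        rw [← Finset.mul_sum]
        ring
      have h2 : ‖(1 / (H : ℝ)) • ∑ j ∈ Finset.range H, y b (m + j)‖ ^ 2 ≤
          (Kf * (ε / (2 * (Kf + 1)))) ^ 2 := by
        rw [e1, norm_tl ((hP b).mul hG)]
        calc ∫ x, (P b x * ((1 / (H : ℝ)) * ∑ j ∈ Finset.range H,
              g (T^[(m + j) ^ 2] x))) ^ 2 ∂μ
            ≤ ∫ x, Kf ^ 2 * ((1 / (H : ℝ)) * ∑ j ∈ Finset.range H,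
              g (T^[(m + j) ^ 2] x)) ^ 2 ∂μ := by
              refine integral_mono_of_nonneg (Eventually.of_forall fun x => sq_nonneg _) ?_
                (Eventually.of_forall fun x => ?_)
              · have := (Bd.const (X := X) (Kf ^ 2)).mul (hG.mul hG)
                refine (this.integrable (μ := μ)).congr (Eventually.of_forall fun x => ?_)
                simp only [sq]
              · simp only [mul_pow]
                refine mul_le_mul_of_nonneg_right ?_ (by positivity)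
                exact sq_le_sq' (neg_le_of_abs_le (hKf b x)) (le_of_abs_le (hKf b x))
          _ = Kf ^ 2 * ∫ x, ((1 / (H : ℝ)) * ∑ j ∈ Finset.range H,
              g (T^[(m + j) ^ 2] x)) ^ 2 ∂μ := integral_const_mul _ _
          _ ≤ Kf ^ 2 * (ε / (2 * (Kf + 1))) ^ 2 := by
              have := hVCH m
              gcongr
          _ = _ := by ring
      exact le_of_sq_le_sq h2 (by positivity)
    have h3 : Kf * (ε / (2 * (Kf + 1))) ≤ ε / 2 := by
      rw [show Kf * (ε / (2 * (Kf + 1))) = (Kf / (Kf + 1)) * (ε / 2) by field_simp]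
      have : Kf / (Kf + 1) ≤ 1 := by
        rw [div_le_one (by positivity)]
        linarith
      nlinarith
    have h4 : ‖(1 / (N : ℝ)) • ∑ n ∈ Finset.Icc 1 N,
        (1 / (H : ℝ)) • ∑ j ∈ Finset.range H, y (θ n) (φ n + j)‖ ≤ ε / 2 := by
      rw [norm_smul]
      have h5 : ‖∑ n ∈ Finset.Icc 1 N, (1 / (H : ℝ)) • ∑ j ∈ Finset.range H,
          y (θ n) (φ n + j)‖ ≤ N * (ε / 2) := by
        refine (norm_sum_le _ _).trans ?_
        refine (Finset.sum_le_sum fun n _ => (hb _ _).trans h3).trans ?_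
        simp
      rcases Nat.eq_zero_or_pos N with rfl | hN0
      · simp
        positivity
      · have hN1 : (0 : ℝ) < N := by exact_mod_cast hN0
        rw [Real.norm_of_nonneg (by positivity)]
        calc 1 / (N : ℝ) * _ ≤ 1 / (N : ℝ) * (N * (ε / 2)) := by gcongr
          _ = ε / 2 := by field_simp
    rw [dist_zero_right, norm_norm]
    have e2 : (1 / (N : ℝ)) • ∑ n ∈ Finset.Icc 1 N, y (θ n) (φ n) =
        (1 / (N : ℝ)) • ∑ n ∈ Finset.Icc 1 N,
          (y (θ n) (φ n) - (1 / (H : ℝ)) • ∑ j ∈ Finset.range H, y (θ n) (φ n + j)) +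
        (1 / (N : ℝ)) • ∑ n ∈ Finset.Icc 1 N,
          (1 / (H : ℝ)) • ∑ j ∈ Finset.range H, y (θ n) (φ n + j) := by
      rw [← smul_add, ← Finset.sum_add_distrib]
      simp only [sub_add_cancel]
    rw [e2]
    calc _ ≤ _ := norm_add_le _ _
      _ < ε / 2 + ε / 2 := add_lt_add_of_lt_of_le h1 h4
      _ = ε := by ring
  have h6 := hnorm.pow 2
  rw [zero_pow two_ne_zero] at h6
  refine h6.congr fun N => ?_
  rw [← tl_sum (μ := μ) (F := fun n => Y (θ n) (φ n)) _ (fun j _ => hY _ _),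
    ← tl_smul (Bd.sum _ fun j _ => hY _ _),
    norm_tl ((Bd.const _).mul (Bd.sum _ fun j _ => hY _ _))]
  refine integral_congr_ae (Eventually.of_forall fun x => ?_)
  simp only [Y, P, θ, φ]
  congr 2
  refine Finset.sum_congr rfl fun n _ => ?_
  congr 1
  rw [← Finset.prod_coe_sort s]

theorem main_bd (hVC : S_VC) (hSH : S_SH) {k : ℕ} (c : Fin k → ℝ) (hci : Function.Injective c)
    (hc0 : ∀ i, 0 < c i)
    (hc1 : ∀ i, c i < 1) (T : X → X) (hT : MeasurePreserving T μ μ)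
    (hTe : ∀ n : ℕ, 1 ≤ n → Ergodic (T^[n]) μ) (f : Fin k → X → ℝ) (hf : ∀ i, Bd (f i))
    (s : Finset (Fin k)) :
    Tendsto (fun N : ℕ => ∫ x, ((1 / (N : ℝ)) * ∑ n ∈ Finset.Icc 1 N,
      ∏ i ∈ s, f i (T^[⌊(n : ℝ) ^ (c i)⌋₊ ^ 2] x) - ∏ i ∈ s, ∫ y, f i y ∂μ) ^ 2 ∂μ)
      atTop (𝓝 0) := by
  classical
  have hTm : ∀ n, Measurable (T^[n]) := fun n => hT.measurable.iterate n
  induction s using Finset.induction_on_max_value c with
  | empty =>
    refine tendsto_const_nhds.congr' ?_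
    filter_upwards [eventually_ge_atTop 1] with N hN
    have hN' : (N : ℝ) ≠ 0 := by positivity
    simp [hN']
  | insert a s has hmax ih =>
    have hlt : ∀ i ∈ s, c i < c a := fun i hi => lt_of_le_of_ne (hmax i hi) fun h =>
      has (hci h ▸ hi)
    set I : ℝ := ∫ y, f a y ∂μ with hI
    have hg : Bd (fun x => f a x + (-I)) := (hf a).add (Bd.const _)
    have hg0 : ∫ x, (f a x + (-I)) ∂μ = 0 := by
      rw [integral_add (hf a).integrable (integrable_const _)]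
      simp [hI]
    have h1 := key hVC hSH c hc0 hc1 T hT hTe s a hlt f hf _ hg hg0
    have h2 := ih.const_mul (2 * I ^ 2)
    have h3 := (h1.const_mul 2).add h2
    rw [mul_zero, mul_zero, add_zero] at h3
    have hB : ∀ n : ℕ, Bd (fun x => ∏ i ∈ s, f i (T^[⌊(n : ℝ) ^ (c i)⌋₊ ^ 2] x)) := fun n =>
      Bd.prod _ fun i _ => (hf i).comp (hTm _)
    have hA1 : ∀ N : ℕ, Bd (fun x => (1 / (N : ℝ)) * ∑ n ∈ Finset.Icc 1 N,
        ((∏ i ∈ s, f i (T^[⌊(n : ℝ) ^ (c i)⌋₊ ^ 2] x)) *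
          (f a (T^[⌊(n : ℝ) ^ (c a)⌋₊ ^ 2] x) + (-I)))) := fun N =>
      (Bd.const _).mul (Bd.sum _ fun n _ => (hB n).mul (hg.comp (hTm _)))
    have hA2 : ∀ N : ℕ, Bd (fun x => (1 / (N : ℝ)) * ∑ n ∈ Finset.Icc 1 N,
        ∏ i ∈ s, f i (T^[⌊(n : ℝ) ^ (c i)⌋₊ ^ 2] x) - ∏ i ∈ s, ∫ y, f i y ∂μ) := fun N => by
      have := ((Bd.const (1 / (N : ℝ))).mul (Bd.sum (Finset.Icc 1 N) fun n _ => hB n)).add
        (Bd.const (-∏ i ∈ s, ∫ y, f i y ∂μ))
      simpa [sub_eq_add_neg] using this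
    refine squeeze_zero (fun N => integral_nonneg fun x => sq_nonneg _) (fun N => ?_) h3
    rw [← integral_const_mul, ← integral_const_mul, ← integral_add]
    · refine integral_mono_of_nonneg (Eventually.of_forall fun x => sq_nonneg _) ?_
        (Eventually.of_forall fun x => ?_)
      · refine Integrable.add ?_ ?_
        · refine (((Bd.const (X := X) 2).mul ((hA1 N).mul (hA1 N))).integrable (μ := μ)).congr
            (Eventually.of_forall fun x => ?_)
          simp only [sq]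
        · refine (((Bd.const (X := X) (2 * I ^ 2)).mul ((hA2 N).mul (hA2 N))).integrable
            (μ := μ)).congr (Eventually.of_forall fun x => ?_)
          simp only [sq]
      · have e1 : (1 / (N : ℝ)) * ∑ n ∈ Finset.Icc 1 N,
            ∏ i ∈ insert a s, f i (T^[⌊(n : ℝ) ^ (c i)⌋₊ ^ 2] x) -
            ∏ i ∈ insert a s, ∫ y, f i y ∂μ =
            (1 / (N : ℝ)) * ∑ n ∈ Finset.Icc 1 N,
              ((∏ i ∈ s, f i (T^[⌊(n : ℝ) ^ (c i)⌋₊ ^ 2] x)) *
                (f a (T^[⌊(n : ℝ) ^ (c a)⌋₊ ^ 2] x) + (-I))) +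
            I * ((1 / (N : ℝ)) * ∑ n ∈ Finset.Icc 1 N,
              ∏ i ∈ s, f i (T^[⌊(n : ℝ) ^ (c i)⌋₊ ^ 2] x) - ∏ i ∈ s, ∫ y, f i y ∂μ) := by
          simp only [Finset.prod_insert has, mul_add, Finset.sum_add_distrib, ← Finset.sum_mul]
          rw [show ∑ n ∈ Finset.Icc 1 N, f a (T^[⌊(n : ℝ) ^ (c a)⌋₊ ^ 2] x) *
              ∏ i ∈ s, f i (T^[⌊(n : ℝ) ^ (c i)⌋₊ ^ 2] x) =
              ∑ n ∈ Finset.Icc 1 N, (∏ i ∈ s, f i (T^[⌊(n : ℝ) ^ (c i)⌋₊ ^ 2] x)) *
                f a (T^[⌊(n : ℝ) ^ (c a)⌋₊ ^ 2] x) from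
            Finset.sum_congr rfl fun n _ => mul_comm _ _]
          ring
        simp only [e1]
        have := two_mul_le_add_sq ((1 / (N : ℝ)) * ∑ n ∈ Finset.Icc 1 N,
              ((∏ i ∈ s, f i (T^[⌊(n : ℝ) ^ (c i)⌋₊ ^ 2] x)) *
                (f a (T^[⌊(n : ℝ) ^ (c a)⌋₊ ^ 2] x) + (-I))))
            (I * ((1 / (N : ℝ)) * ∑ n ∈ Finset.Icc 1 N,
              ∏ i ∈ s, f i (T^[⌊(n : ℝ) ^ (c i)⌋₊ ^ 2] x) - ∏ i ∈ s, ∫ y, f i y ∂μ))
        nlinarith
    · refine (((Bd.const (X := X) 2).mul ((hA1 N).mul (hA1 N))).integrable (μ := μ)).congr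
        (Eventually.of_forall fun x => ?_)
      simp only [sq]
    · refine (((Bd.const (X := X) (2 * I ^ 2)).mul ((hA2 N).mul (hA2 N))).integrable
        (μ := μ)).congr (Eventually.of_forall fun x => ?_)
      simp only [sq]

/-- essentially bounded functions agree almost everywhere with bounded measurable ones -/
theorem exists_bd {F : X → ℝ} (h : MemLp F ⊤ μ) : ∃ G : X → ℝ, Bd G ∧ F =ᵐ[μ] G := by
  obtain ⟨C, hC⟩ : ∃ C : ℝ, ∀ᵐ x ∂μ, ‖F x‖ ≤ C := by
    have h1 := h.2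
    rw [eLpNorm_exponent_top] at h1
    exact ⟨(eLpNormEssSup F μ).toReal, by
      filter_upwards [ae_le_eLpNormEssSup (f := F) (μ := μ)] with x hx
      rw [← toReal_enorm]
      exact ENNReal.toReal_mono h1.ne hx⟩
  obtain ⟨G, hG, hFG⟩ := h.1
  have hGm : Measurable G := hG.measurable
  refine ⟨fun x => max (-|C|) (min |C| (G x)), ⟨(measurable_const.max (measurable_const.min hGm)),
    |C|, fun x => ?_⟩, ?_⟩
  · rw [abs_le]
    exact ⟨le_max_left _ _, max_le (by linarith [abs_nonneg C]) (min_le_left _ _)⟩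
  · filter_upwards [hFG, hC] with x h1 h2
    rw [← h1]
    rw [Real.norm_eq_abs] at h2
    have h3 := abs_le.1 (h2.trans (le_abs_self C))
    rw [min_eq_right h3.2, max_eq_right h3.1]

theorem main (hVC : S_VC) (hSH : S_SH) {k : ℕ} (c : Fin k → ℝ) (hci : Function.Injective c)
    (hc0 : ∀ i, 0 < c i)
    (hc1 : ∀ i, c i < 1) (T : X → X) (hT : MeasurePreserving T μ μ)
    (hTe : ∀ n : ℕ, 1 ≤ n → Ergodic (T^[n]) μ) (f : Fin k → X → ℝ) (hf : ∀ i, MemLp (f i) ⊤ μ) :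
    Tendsto (fun N : ℕ => ∫ x, ((1 / (N : ℝ)) * ∑ n ∈ Finset.Icc 1 N,
      ∏ i, f i (T^[⌊(n : ℝ) ^ (c i)⌋₊ ^ 2] x) - ∏ i, ∫ y, f i y ∂μ) ^ 2 ∂μ)
      atTop (𝓝 0) := by
  choose F hF hfF using fun i => exists_bd (hf i)
  have h1 := main_bd hVC hSH c hci hc0 hc1 T hT hTe F hF Finset.univ
  refine h1.congr fun N => ?_
  have h2 : ∀ i, ∫ y, f i y ∂μ = ∫ y, F i y ∂μ := fun i => integral_congr_ae (hfF i)
  have h3 : ∀ᵐ x ∂μ, ∀ i, ∀ n : ℕ, f i (T^[n] x) = F i (T^[n] x) := by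
    rw [ae_all_iff]
    intro i
    rw [ae_all_iff]
    intro n
    exact (hT.iterate n).quasiMeasurePreserving.ae (hfF i)
  refine integral_congr_ae ?_
  filter_upwards [h3] with x hx
  simp only [hx, h2]

end

end Pool.Agent.W5h47.JE
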