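import Mathlib

/-! Interface for joint ergodicity of `⌊n^{c_i}⌋²`, all `c_i < 1` (MP_ce5406_an). -/

open MeasureTheory Filter Topology

namespace Pool.Agent.W5h47.JE

/-- (VDC) van der Corput, uniformly in a parameter `M`. -/
def S_VDC : Prop := ∀ (E : Type) [NormedAddCommGroup E] [InnerProductSpace ℝ E] (K : ℝ)
  (u : ℕ → ℕ → E), (∀ M j, ‖u M j‖ ≤ K) →
  (∀ h : ℕ, 1 ≤ h → ∀ ε : ℝ, 0 < ε → ∃ H₀ : ℕ, ∀ H : ℕ, H₀ ≤ H → ∀ M : ℕ,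
    |(1 / (H : ℝ)) * ∑ j ∈ Finset.range H, inner ℝ (u M (j + h)) (u M j)| ≤ ε) →
  ∀ ε : ℝ, 0 < ε → ∃ H₀ : ℕ, ∀ H : ℕ, H₀ ≤ H → ∀ M : ℕ,
    ‖(1 / (H : ℝ)) • ∑ j ∈ Finset.range H, u M j‖ ≤ ε

/-- (ME) the mean ergodic theorem for an ergodic map and a bounded function of mean zero. -/
def S_ME : Prop := ∀ (X : Type) [MeasurableSpace X] (μ : Measure X) [IsProbabilityMeasure μ]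
  (S : X → X), Ergodic S μ → ∀ g : X → ℝ, Measurable g → (∃ K : ℝ, ∀ x, |g x| ≤ K) →
  ∫ x, g x ∂μ = 0 →
  Tendsto (fun H : ℕ => ∫ x, ((1 / (H : ℝ)) * ∑ j ∈ Finset.range H, g (S^[j] x)) ^ 2 ∂μ)
    atTop (𝓝 0)

/-- (VC) short averages along squares for a totally ergodic map are small, uniformly in the
position. -/
def S_VC : Prop := ∀ (X : Type) [MeasurableSpace X] (μ : Measure X) [IsProbabilityMeasure μ]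
  (T : X → X), MeasurePreserving T μ μ → (∀ n : ℕ, 1 ≤ n → Ergodic (T^[n]) μ) →
  ∀ g : X → ℝ, Measurable g → (∃ K : ℝ, ∀ x, |g x| ≤ K) → ∫ x, g x ∂μ = 0 →
  ∀ ε : ℝ, 0 < ε → ∃ H : ℕ, 1 ≤ H ∧ ∀ M : ℕ,
    ∫ x, ((1 / (H : ℝ)) * ∑ j ∈ Finset.range H, g (T^[(M + j) ^ 2] x)) ^ 2 ∂μ ≤ ε

/-- (SH) the fastest sequence may be shifted by one: `y a m` is a bounded family, `a` stands for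
the slower sequences `⌊n^{c' i}⌋` and `m` for `⌊n^c⌋`, `c' i < c < 1`. -/
def S_SH : Prop := ∀ (E : Type) [NormedAddCommGroup E] [NormedSpace ℝ E] (ι : Type) [Finite ι]
  (c : ℝ) (c' : ι → ℝ), c < 1 → 0 < c → (∀ i, 0 < c' i) → (∀ i, c' i < c) →
  ∀ (y : (ι → ℕ) → ℕ → E) (K : ℝ), (∀ a m, ‖y a m‖ ≤ K) →
  Tendsto (fun N : ℕ => (1 / (N : ℝ)) • ∑ n ∈ Finset.Icc 1 N,
    (y (fun i => ⌊(n : ℝ) ^ (c' i)⌋₊) ⌊(n : ℝ) ^ c⌋₊ -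
      y (fun i => ⌊(n : ℝ) ^ (c' i)⌋₊) (⌊(n : ℝ) ^ c⌋₊ + 1))) atTop (𝓝 0)

/-- (SH1) the counting estimates behind (SH): with `W m = ⌈m^(1/c)⌉`,
the set of `n ≥ 1` with `⌊n^c⌋ = m` is `[W m, W (m+1))` for `m ≥ 1`; total variation of the lengths,
and number of `m` such that some slower sequence changes on `[W m, W (m+2))`. -/
def S_SH1 : Prop := ∀ (ι : Type) [Finite ι] (c : ℝ) (c' : ι → ℝ), c < 1 → 0 < c →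
  (∀ i, 0 < c' i) → (∀ i, c' i < c) →
  (∀ m n : ℕ, 1 ≤ m → (⌊(n : ℝ) ^ c⌋₊ = m ↔
    ⌈(m : ℝ) ^ (1 / c)⌉₊ ≤ n ∧ n < ⌈((m + 1 : ℕ) : ℝ) ^ (1 / c)⌉₊)) ∧
  ∀ ε : ℝ, 0 < ε → ∃ N₀ : ℕ, ∀ N : ℕ, N₀ ≤ N → ∀ M : ℕ, M ≤ ⌊(N : ℝ) ^ c⌋₊ →
    (⌈((M + 2 : ℕ) : ℝ) ^ (1 / c)⌉₊ : ℝ) - ⌈(M : ℝ) ^ (1 / c)⌉₊ ≤ ε * N ∧
    ∑ m ∈ Finset.range M, |((⌈((m + 2 : ℕ) : ℝ) ^ (1 / c)⌉₊ : ℝ) -
      2 * ⌈((m + 1 : ℕ) : ℝ) ^ (1 / c)⌉₊ + ⌈(m : ℝ) ^ (1 / c)⌉₊)| ≤ ε * N ∧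
    ∑ m ∈ Finset.range M, (open Classical in
      if ∃ n n' : ℕ, ⌈(m : ℝ) ^ (1 / c)⌉₊ ≤ n ∧ n ≤ n' ∧ n' < ⌈((m + 2 : ℕ) : ℝ) ^ (1 / c)⌉₊ ∧
          ∃ i, ⌊(n : ℝ) ^ (c' i)⌋₊ ≠ ⌊(n' : ℝ) ^ (c' i)⌋₊
      then ((⌈((m + 2 : ℕ) : ℝ) ^ (1 / c)⌉₊ : ℝ) - ⌈(m : ℝ) ^ (1 / c)⌉₊) else 0) ≤ ε * N

end Pool.Agent.W5h47.JE
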